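import Mathlib

/-!
Translations and convolution by measures on `L¹` of the circle, the space `H¹₀`.
-/

set_option autoImplicit false

open MeasureTheory AddCircle Filter Topology

namespace Pool.Agent.V11282.RJ

noncomputable section

instance fact2pi : Fact ((0:ℝ) < 2 * Real.pi) := ⟨Real.two_pi_pos⟩

/-- the circle `ℝ / 2πℤ` -/
abbrev TT := AddCircle (2 * Real.pi)

/-- `L¹` of the circle for normalised Haar measure -/
abbrev L1 := Lp ℂ 1 (haarAddCircle : Measure TT)

lemma int_L1 (f : L1) : Integrable (f : TT → ℂ) haarAddCircle := L1.integrable_coeFn f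

lemma norm_L1 (f : L1) : ‖f‖ = ∫ t, ‖f t‖ ∂haarAddCircle := L1.norm_eq_integral_norm f

/-- the `n`-th Fourier coefficient as a functional on `L¹` -/
def fc (n : ℤ) : L1 →L[ℂ] ℂ :=
  LinearMap.mkContinuous
    { toFun := fun f => fourierCoeff (f : TT → ℂ) n
      map_add' := by
        intro f g
        rw [fourierCoeff_congr_ae (Lp.coeFn_add f g), fourierCoeff.add (int_L1 f) (int_L1 g)]
        rfl
      map_smul' := by
        intro c f
        rw [fourierCoeff_congr_ae (Lp.coeFn_smul c f), fourierCoeff.const_smul]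
        rfl } 1 (by
      intro f
      rw [one_mul, norm_L1]
      simp only [LinearMap.coe_mk, AddHom.coe_mk]
      unfold fourierCoeff
      refine (norm_integral_le_integral_norm _).trans (le_of_eq ?_)
      congr 1
      funext t
      rw [norm_smul, fourier_apply, Circle.norm_coe, one_mul])

@[simp] lemma fc_apply (n : ℤ) (f : L1) : fc n f = fourierCoeff (f : TT → ℂ) n := rfl

/-- translation by `y` on `L¹` -/
def tr (y : TT) : L1 →L[ℂ] L1 :=
  (Lp.compMeasurePreservingₗᵢ ℂ (fun x : TT => x - y)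
    (measurePreserving_sub_right haarAddCircle y)).toContinuousLinearMap

lemma tr_coe (y : TT) (f : L1) : (tr y f : TT → ℂ) =ᵐ[haarAddCircle] fun x => f (x - y) :=
  Lp.coeFn_compMeasurePreserving f (measurePreserving_sub_right haarAddCircle y)

lemma norm_tr (y : TT) (f : L1) : ‖tr y f‖ = ‖f‖ :=
  Lp.norm_compMeasurePreserving f (measurePreserving_sub_right haarAddCircle y)

lemma tr_zero : tr 0 = 1 := by
  ext1 f
  apply Lp.ext
  refine (tr_coe 0 f).trans ?_
  simp

lemma tr_add (x y : TT) : tr (x + y) = tr x * tr y := by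
  ext1 f
  apply Lp.ext
  refine (tr_coe (x + y) f).trans ?_
  have h2 := tr_coe x (tr y f)
  have h3 := (measurePreserving_sub_right haarAddCircle x).quasiMeasurePreserving.ae_eq_comp
    (tr_coe y f)
  refine EventuallyEq.trans ?_ h2.symm
  refine EventuallyEq.trans ?_ h3.symm
  refine Eventually.of_forall fun t => ?_
  simp only [Function.comp]
  congr 1
  abel

lemma tr_cont (f : L1) : Continuous fun y : TT => tr y f := by
  have hg : Continuous (fun y : TT => (⟨fun x : TT => x - y, by fun_prop⟩ : C(TT, TT))) := by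
    apply ContinuousMap.continuous_of_continuous_uncurry
    simp only [Function.uncurry_def, ContinuousMap.coe_mk]
    fun_prop
  exact Continuous.compMeasurePreservingLp (p := 1) (f := fun _ : TT => f) continuous_const hg
    (fun y => measurePreserving_sub_right haarAddCircle y) (by simp)

lemma fou_add (n : ℤ) (x y : TT) : (fourier n (x + y) : ℂ) = fourier n x * fourier n y := by
  simp only [fourier_apply, smul_add, toCircle_add, Circle.coe_mul]

lemma fc_tr (n : ℤ) (y : TT) (f : L1) : fc n (tr y f) = fourier (-n) y * fc n f := by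
  simp only [fc_apply]
  rw [fourierCoeff_congr_ae (tr_coe y f)]
  unfold fourierCoeff
  have h := integral_sub_right_eq_self (μ := haarAddCircle)
    (fun x : TT => (fourier (-n) (x + y) : ℂ) • f x) y
  simp only [sub_add_cancel] at h
  rw [h, ← integral_const_mul]
  congr 1
  funext x
  rw [fou_add]
  simp only [smul_eq_mul]
  ring

lemma tr_integrable (μ : Measure TT) [IsProbabilityMeasure μ] (f : L1) :
    Integrable (fun y => tr y f) μ :=
  (tr_cont f).integrable_of_hasCompactSupport (HasCompactSupport.of_compactSpace _)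

/-- convolution by a probability measure on `L¹` -/
def cv (μ : Measure TT) [IsProbabilityMeasure μ] : L1 →L[ℂ] L1 :=
  LinearMap.mkContinuous
    { toFun := fun f => ∫ y, tr y f ∂μ
      map_add' := by
        intro f g
        simp only [map_add]
        exact integral_add (tr_integrable μ f) (tr_integrable μ g)
      map_smul' := by
        intro c f
        simp only [map_smul, RingHom.id_apply]
        exact integral_smul _ _ } 1 (by
      intro f
      rw [one_mul]
      simp only [LinearMap.coe_mk, AddHom.coe_mk]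
      refine (norm_integral_le_integral_norm _).trans ?_
      simp [norm_tr])

lemma cv_apply (μ : Measure TT) [IsProbabilityMeasure μ] (f : L1) :
    cv μ f = ∫ y, tr y f ∂μ := rfl

lemma norm_cv_le (μ : Measure TT) [IsProbabilityMeasure μ] (f : L1) : ‖cv μ f‖ ≤ ‖f‖ := by
  rw [cv_apply]
  refine (norm_integral_le_integral_norm _).trans ?_
  simp [norm_tr]

lemma fc_cv (μ : Measure TT) [IsProbabilityMeasure μ] (n : ℤ) (f : L1) :
    fc n (cv μ f) = (∫ y, fourier (-n) y ∂μ) * fc n f := by
  rw [cv_apply, ← ContinuousLinearMap.integral_comp_comm _ (tr_integrable μ f),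
    ← integral_mul_const]
  congr 1
  funext y
  rw [fc_tr]

/-- the space `H¹₀`: integrable functions whose Fourier coefficients of index `n ≤ 0` vanish -/
def H10 : Submodule ℂ L1 where
  carrier := {f | ∀ n : ℤ, n ≤ 0 → fourierCoeff (f : TT → ℂ) n = 0}
  add_mem' := by
    intro f g hf hg n hn
    have h := map_add (fc n) f g
    simp only [fc_apply] at h
    rw [h, hf n hn, hg n hn, add_zero]
  zero_mem' := by
    intro n _
    have h := map_zero (fc n)
    simpa only [fc_apply] using h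
  smul_mem' := by
    intro c f hf n hn
    have h := map_smul (fc n) c f
    simp only [fc_apply] at h
    rw [h, hf n hn, smul_zero]

lemma mem_H10 (f : L1) : f ∈ H10 ↔ ∀ n : ℤ, n ≤ 0 → fc n f = 0 := Iff.rfl

lemma H10_closed : IsClosed (H10 : Set L1) := by
  have h : (H10 : Set L1) = ⋂ n : ℤ, ⋂ _ : n ≤ 0, {f | fc n f = 0} := by
    ext f
    simp only [SetLike.mem_coe, mem_H10, Set.mem_iInter, Set.mem_setOf_eq]
  rw [h]
  refine isClosed_iInter fun n => isClosed_iInter fun _ => ?_
  exact isClosed_eq (fc n).continuous continuous_const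

instance : CompleteSpace H10 := H10_closed.completeSpace_coe

lemma cv_mem (μ : Measure TT) [IsProbabilityMeasure μ] {f : L1} (hf : f ∈ H10) : cv μ f ∈ H10 := by
  rw [mem_H10] at hf ⊢
  intro n hn
  rw [fc_cv, hf n hn, mul_zero]

lemma tr_mem (y : TT) {f : L1} (hf : f ∈ H10) : tr y f ∈ H10 := by
  rw [mem_H10] at hf ⊢
  intro n hn
  rw [fc_tr, hf n hn, mul_zero]

/-- convolution by a probability measure on `H¹₀` -/
def cvH (μ : Measure TT) [IsProbabilityMeasure μ] : H10 →L[ℂ] H10 :=
  ((cv μ).comp H10.subtypeL).codRestrict H10 (fun f => cv_mem μ f.2)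

@[simp] lemma cvH_coe (μ : Measure TT) [IsProbabilityMeasure μ] (f : H10) :
    ((cvH μ f : H10) : L1) = cv μ f := rfl

/-- If there are approximate eigenvectors then `l` is in the spectrum. -/
lemma mem_spectrum_of_approx (μ : Measure TT) [IsProbabilityMeasure μ] (l : ℂ)
    (h : ∀ ε : ℝ, 0 < ε → ∃ f ∈ H10, f ≠ 0 ∧ ‖cv μ f - l • f‖ ≤ ε * ‖f‖) :
    l ∈ spectrum ℂ (cvH μ) := by
  rw [spectrum.mem_iff]
  intro hu
  obtain ⟨u, hu⟩ := hu
  set S : H10 →L[ℂ] H10 := algebraMap ℂ (H10 →L[ℂ] H10) l - cvH μ with hS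
  set V : H10 →L[ℂ] H10 := (↑u⁻¹ : H10 →L[ℂ] H10) with hV
  have h1 : V * S = 1 := by rw [hV, ← hu]; exact u.inv_mul
  obtain ⟨f, hf, hf0, hle⟩ := h (1 / (2 * (‖V‖ + 1))) (by positivity)
  have hfpos : 0 < ‖f‖ := norm_pos_iff.mpr hf0
  have h2 : V (S ⟨f, hf⟩) = ⟨f, hf⟩ := by
    have := congrArg (fun T : H10 →L[ℂ] H10 => T ⟨f, hf⟩) h1
    simpa using this
  have h3 : ‖S ⟨f, hf⟩‖ ≤ 1 / (2 * (‖V‖ + 1)) * ‖f‖ := by
    have h4 : ((S ⟨f, hf⟩ : H10) : L1) = - (cv μ f - l • f) := by
      rw [hS]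
      simp [Algebra.algebraMap_eq_smul_one]
    have h7 : ‖S ⟨f, hf⟩‖ = ‖((S ⟨f, hf⟩ : H10) : L1)‖ := rfl
    rw [h7, h4, norm_neg]
    exact hle
  have h5 : ‖f‖ ≤ ‖V‖ * (1 / (2 * (‖V‖ + 1)) * ‖f‖) := by
    calc ‖f‖ = ‖(⟨f, hf⟩ : H10)‖ := rfl
      _ = ‖V (S ⟨f, hf⟩)‖ := by rw [h2]
      _ ≤ ‖V‖ * ‖S ⟨f, hf⟩‖ := V.le_opNorm _
      _ ≤ _ := by gcongr
  have h6 : ‖V‖ * (1 / (2 * (‖V‖ + 1)) * ‖f‖) < ‖f‖ := by
    have hv := norm_nonneg V
    rw [show ‖V‖ * (1 / (2 * (‖V‖ + 1)) * ‖f‖) = (‖V‖ / (2 * (‖V‖ + 1))) * ‖f‖ by ring]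
    have : ‖V‖ / (2 * (‖V‖ + 1)) < 1 := by
      rw [div_lt_one (by positivity)]
      linarith
    nlinarith
  linarith

end

end Pool.Agent.V11282.RJ
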