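import Mathlib
import Pool.Agent.V11282.RJ.Basic

/-!
Pointwise formula for the convolution.
-/

set_option autoImplicit false

open MeasureTheory Filter Topology AddCircle

namespace Pool.Agent.V11282.RJ

noncomputable section

/-- integral over a set as a functional on `L¹` -/
def sI (s : Set TT) : L1 →L[ℂ] ℂ :=
  LinearMap.mkContinuous
    { toFun := fun f => ∫ x in s, f x ∂haarAddCircle
      map_add' := by
        intro f g
        rw [← integral_add (int_L1 f).integrableOn (int_L1 g).integrableOn]
        apply integral_congr_ae
        exact ae_restrict_of_ae (Lp.coeFn_add f g)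
      map_smul' := by
        intro c f
        rw [RingHom.id_apply, ← integral_smul]
        apply integral_congr_ae
        exact ae_restrict_of_ae (Lp.coeFn_smul c f) } 1 (by
      intro f
      rw [one_mul, norm_L1]
      simp only [LinearMap.coe_mk, AddHom.coe_mk]
      refine (norm_integral_le_integral_norm _).trans ?_
      exact setIntegral_le_integral (int_L1 f).norm (Eventually.of_forall fun _ => norm_nonneg _))

lemma sI_apply (s : Set TT) (f : L1) : sI s f = ∫ x in s, f x ∂haarAddCircle := rfl

lemma cv_ae (μ : Measure TT) [IsProbabilityMeasure μ] (f : L1) :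
    (cv μ f : TT → ℂ) =ᵐ[haarAddCircle] fun x => ∫ y, f (x - y) ∂μ := by
  set G : TT × TT → ℂ := fun p => f (p.1 - p.2) with hG
  have hGm : StronglyMeasurable G :=
    (Lp.stronglyMeasurable f).comp_measurable (measurable_fst.sub measurable_snd)
  have hGi : Integrable G ((haarAddCircle : Measure TT).prod μ) := by
    rw [integrable_prod_iff' hGm.aestronglyMeasurable]
    refine ⟨Eventually.of_forall fun y => (int_L1 f).comp_sub_right y, ?_⟩
    have h1 : (fun y => ∫ x, ‖G (x, y)‖ ∂(haarAddCircle : Measure TT)) = fun _ => ‖f‖ := by
      funext y
      rw [norm_L1]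
      exact integral_sub_right_eq_self (μ := haarAddCircle) (fun t : TT => ‖f t‖) y
    rw [h1]
    exact integrable_const _
  apply Integrable.ae_eq_of_forall_setIntegral_eq _ _ (int_L1 _) hGi.integral_prod_left
  intro s hs _
  rw [← sI_apply, cv_apply, ← ContinuousLinearMap.integral_comp_comm _ (tr_integrable μ f)]
  have h2 : ∀ y, sI s (tr y f) = ∫ x in s, f (x - y) ∂haarAddCircle := by
    intro y
    rw [sI_apply]
    apply integral_congr_ae
    exact ae_restrict_of_ae (tr_coe y f)
  simp only [h2]
  have h3 : Integrable (Function.uncurry fun (x y : TT) => f (x - y))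
      (((haarAddCircle : Measure TT).restrict s).prod μ) := by
    have h4 := hGi.integrableOn (s := s ×ˢ (Set.univ : Set TT))
    rw [IntegrableOn, ← Measure.prod_restrict, Measure.restrict_univ] at h4
    exact h4
  exact (integral_integral_swap h3).symm

end

end Pool.Agent.V11282.RJ
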