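import Mathlib

/-!
Counting lemmas: anticoncentration and large deviations in a finite product.
-/

set_option autoImplicit false

open Finset

namespace Pool.Agent.V11282.RJ

noncomputable section

/-- a finite set of integers of small diameter is small -/
lemma card_le_of_diam {Q : ℕ} (S : Finset (Fin Q)) (L : ℝ) (hL : 0 ≤ L)
    (h : ∀ x ∈ S, ∀ y ∈ S, ((x : ℕ) : ℝ) - (y : ℕ) ≤ L) : (S.card : ℝ) ≤ L + 1 := by
  rcases S.eq_empty_or_nonempty with rfl | hne
  · simp; linarith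
  · set a := S.min' hne
    set b := S.max' hne
    have h1 : S.card ≤ (b : ℕ) - (a : ℕ) + 1 := by
      have h2 : S ⊆ Finset.Icc a b := by
        intro x hx
        rw [Finset.mem_Icc]
        exact ⟨S.min'_le x hx, S.le_max' x hx⟩
      have h3 := Finset.card_le_card h2
      rw [Fin.card_Icc] at h3
      omega
    have h4 := h b (S.max'_mem hne) a (S.min'_mem hne)
    have h5 : (a : ℕ) ≤ (b : ℕ) := S.min'_le b (S.max'_mem hne)
    have h6 : (S.card : ℝ) ≤ (((b : ℕ) - (a : ℕ) + 1 : ℕ) : ℝ) := by exact_mod_cast h1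
    rw [Nat.cast_add, Nat.cast_sub h5] at h6
    push_cast at h6
    linarith

/-- anticoncentration -/
lemma anti {ι : Type*} [Fintype ι] [DecidableEq ι] (v : ι → ℤ) (κ : ι) (hv : v κ ≠ 0)
    (Q : ℕ) (hQ : 0 < Q) (D π : ℝ) (hD : 0 < D) :
    ((Finset.univ.filter (fun q : ι → Fin Q =>
      |π + ∑ i, (v i : ℝ) * (((q i : ℕ) : ℝ) / Q)| < D)).card : ℝ)
      ≤ (2 * D + 1 / Q) * (Q : ℝ) ^ (Fintype.card ι) := by
  classical
  set e := Equiv.funSplitAt κ (Fin Q) with he
  have hQ' : (0:ℝ) < Q := by exact_mod_cast hQ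
  have hcard : (Q : ℝ) ^ (Fintype.card ι)
      = Q * (Fintype.card ({j // j ≠ κ} → Fin Q) : ℝ) := by
    have h1 := Fintype.card_congr e
    rw [Fintype.card_prod, Fintype.card_fun, Fintype.card_fin] at h1
    exact_mod_cast h1
  set B : Fin Q → ({j // j ≠ κ} → Fin Q) → Prop := fun x z =>
    |π + ∑ i, (v i : ℝ) * ((((e.symm (x, z)) i : ℕ) : ℝ) / Q)| < D with hB
  have h1 : ((Finset.univ.filter (fun q : ι → Fin Q =>
      |π + ∑ i, (v i : ℝ) * (((q i : ℕ) : ℝ) / Q)| < D)).card : ℝ)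
      = ∑ z : ({j // j ≠ κ} → Fin Q), ((Finset.univ.filter (fun x => B x z)).card : ℝ) := by
    rw [Finset.card_filter]
    simp only [Finset.card_filter]
    push_cast
    rw [← Fintype.sum_prod_type_right (f := fun p : Fin Q × ({j // j ≠ κ} → Fin Q) =>
      if B p.1 p.2 then (1:ℝ) else 0)]
    apply Fintype.sum_equiv e
    intro q
    simp only [hB, Prod.mk.eta, Equiv.symm_apply_apply]
  have h2 : ∀ z, ((Finset.univ.filter (fun x => B x z)).card : ℝ) ≤ 2 * D * Q + 1 := by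
    intro z
    apply card_le_of_diam _ _ (by positivity)
    intro x hx y hy
    have hx' := (Finset.mem_filter.mp hx).2
    have hy' := (Finset.mem_filter.mp hy).2
    simp only [hB] at hx' hy'
    have hs : ∀ x : Fin Q, ∑ i, (v i : ℝ) * ((((e.symm (x, z)) i : ℕ) : ℝ) / Q)
        = (v κ : ℝ) * ((x : ℕ) / Q) + ∑ j : {j // j ≠ κ}, (v j : ℝ) * (((z j : ℕ) : ℝ) / Q) := by
      intro x
      rw [← Finset.add_sum_erase _ _ (Finset.mem_univ κ)]
      congr 1
      · simp [he]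
      · rw [Finset.sum_subtype (p := fun j => j ≠ κ) (Finset.univ.erase κ) (by simp)
          (fun j => (v j : ℝ) * ((((e.symm (x, z)) j : ℕ) : ℝ) / Q))]
        apply Finset.sum_congr rfl
        intro j _
        simp [he, j.2]
    rw [hs] at hx' hy'
    rw [abs_lt] at hx' hy'
    have h3 : |(v κ : ℝ) * (((x : ℕ) : ℝ) - (y : ℕ))| < 2 * D * Q := by
      have e1 : (v κ : ℝ) * (((x : ℕ) : ℝ) - (y : ℕ))
          = ((v κ : ℝ) * (((x : ℕ) : ℝ) / Q) - (v κ : ℝ) * (((y : ℕ) : ℝ) / Q)) * Q := by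
        field_simp
      rw [e1, abs_mul, abs_of_pos hQ']
      apply mul_lt_mul_of_pos_right _ hQ'
      rw [abs_lt]
      constructor <;> linarith [hx'.1, hx'.2, hy'.1, hy'.2]
    rw [abs_mul] at h3
    have h4 : (1:ℝ) ≤ |(v κ : ℝ)| := by
      rw [← Int.cast_abs]
      exact_mod_cast Int.one_le_abs hv
    have h5 : |((x : ℕ) : ℝ) - (y : ℕ)| ≤ |(v κ : ℝ)| * |((x : ℕ) : ℝ) - (y : ℕ)| := by
      nlinarith [abs_nonneg (((x : ℕ) : ℝ) - (y : ℕ))]
    exact (le_abs_self _).trans (h5.trans h3.le)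
  rw [h1]
  calc ∑ z : ({j // j ≠ κ} → Fin Q), ((Finset.univ.filter (fun x => B x z)).card : ℝ)
      ≤ ∑ z : ({j // j ≠ κ} → Fin Q), (2 * D * Q + 1) := Finset.sum_le_sum fun z _ => h2 z
    _ = (Fintype.card ({j // j ≠ κ} → Fin Q) : ℝ) * (2 * D * Q + 1) := by
        rw [Finset.sum_const, Finset.card_univ, nsmul_eq_mul]
    _ = (2 * D + 1 / Q) * (Q : ℝ) ^ (Fintype.card ι) := by
        rw [hcard]
        field_simp

/-- exponential moment -/
lemma exp_moment {Q : ℕ} (X : Fin Q → ℝ) (hX : ∀ x, |X x| ≤ 2) (h0 : ∑ x, X x = 0) (θ : ℝ) :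
    ∑ x, Real.exp (θ * X x) ≤ Q * Real.exp (2 * θ ^ 2) := by
  have h1 : ∀ x, Real.exp (θ * X x) ≤ Real.cosh (2 * θ) + X x / 2 * Real.sinh (2 * θ) := by
    intro x
    have h2 := convexOn_exp.2 (Set.mem_univ (2 * θ)) (Set.mem_univ (-(2 * θ)))
      (show 0 ≤ (1 + X x / 2) / 2 by have := abs_le.mp (hX x); linarith [this.1])
      (show 0 ≤ (1 - X x / 2) / 2 by have := abs_le.mp (hX x); linarith [this.2])
      (by ring)
    simp only [smul_eq_mul] at h2
    have e1 : (1 + X x / 2) / 2 * (2 * θ) + (1 - X x / 2) / 2 * -(2 * θ) = θ * X x := by ring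
    rw [e1] at h2
    refine h2.trans (le_of_eq ?_)
    rw [Real.cosh_eq, Real.sinh_eq]
    ring
  calc ∑ x, Real.exp (θ * X x) ≤ ∑ x, (Real.cosh (2 * θ) + X x / 2 * Real.sinh (2 * θ)) :=
        Finset.sum_le_sum fun x _ => h1 x
    _ = Q * Real.cosh (2 * θ) := by
        rw [Finset.sum_add_distrib, ← Finset.sum_mul, ← Finset.sum_div, h0]
        simp
    _ ≤ Q * Real.exp (2 * θ ^ 2) := by
        have := Real.cosh_le_exp_half_sq (2 * θ)
        have e2 : (2 * θ) ^ 2 / 2 = 2 * θ ^ 2 := by ring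
        rw [e2] at this
        gcongr

/-- Chernoff bound -/
lemma chernoff {ι : Type*} [Fintype ι] [DecidableEq ι] {Q : ℕ} (X : Fin Q → ℝ)
    (hX : ∀ x, |X x| ≤ 2) (h0 : ∑ x, X x = 0) (t : ℝ) (ht : 0 < t) :
    ((Finset.univ.filter (fun q : ι → Fin Q =>
      t * Fintype.card ι ≤ ∑ i, X (q i))).card : ℝ)
      ≤ (Q : ℝ) ^ (Fintype.card ι) * Real.exp (-(t ^ 2 * Fintype.card ι / 8)) := by
  set N := Fintype.card ι
  set θ := t / 4 with hθ
  have h1 : ∑ q : ι → Fin Q, Real.exp (θ * ∑ i, X (q i))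
      = (∑ x, Real.exp (θ * X x)) ^ N := by
    have h2 := Finset.prod_univ_sum (fun _ : ι => (Finset.univ : Finset (Fin Q)))
      (fun _ x => Real.exp (θ * X x))
    rw [Finset.prod_const, Finset.card_univ, Fintype.piFinset_univ] at h2
    rw [h2]
    apply Finset.sum_congr rfl
    intro q _
    rw [← Real.exp_sum, Finset.mul_sum]
  have h3 : (∑ x, Real.exp (θ * X x)) ^ N ≤ (Q * Real.exp (2 * θ ^ 2)) ^ N := by
    apply pow_le_pow_left₀ (Finset.sum_nonneg fun x _ => (Real.exp_pos _).le)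
    exact exp_moment X hX h0 θ
  have h4 : ((Finset.univ.filter (fun q : ι → Fin Q =>
      t * N ≤ ∑ i, X (q i))).card : ℝ) * Real.exp (θ * (t * N))
      ≤ ∑ q : ι → Fin Q, Real.exp (θ * ∑ i, X (q i)) := by
    calc ((Finset.univ.filter (fun q : ι → Fin Q =>
      t * N ≤ ∑ i, X (q i))).card : ℝ) * Real.exp (θ * (t * N))
        = ∑ q ∈ Finset.univ.filter (fun q : ι → Fin Q => t * N ≤ ∑ i, X (q i)),
          Real.exp (θ * (t * N)) := by rw [Finset.sum_const, nsmul_eq_mul]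
      _ ≤ ∑ q ∈ Finset.univ.filter (fun q : ι → Fin Q => t * N ≤ ∑ i, X (q i)),
          Real.exp (θ * ∑ i, X (q i)) := by
          apply Finset.sum_le_sum
          intro q hq
          apply Real.exp_le_exp.mpr
          apply mul_le_mul_of_nonneg_left (Finset.mem_filter.mp hq).2
          rw [hθ]; positivity
      _ ≤ _ := Finset.sum_le_sum_of_subset_of_nonneg (Finset.filter_subset _ _)
          fun q _ _ => (Real.exp_pos _).le
  have h5 : (Q * Real.exp (2 * θ ^ 2)) ^ N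
      = (Q : ℝ) ^ N * Real.exp (-(t ^ 2 * N / 8)) * Real.exp (θ * (t * N)) := by
    rw [mul_pow, ← Real.exp_nat_mul, mul_assoc, ← Real.exp_add]
    congr 2
    rw [hθ]
    ring
  have h6 := h4.trans (h1.le.trans h3)
  rw [h5] at h6
  exact le_of_mul_le_mul_right h6 (Real.exp_pos _)

/-- large deviations for complex valued variables -/
lemma hoeffding {ι : Type*} [Fintype ι] [DecidableEq ι] [Nonempty ι] {Q : ℕ} (hQ : 0 < Q)
    (g : Fin Q → ℂ) (hg : ∀ x, ‖g x‖ ≤ 1) (t : ℝ) (ht : 0 < t) :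
    ((Finset.univ.filter (fun q : ι → Fin Q =>
      t < ‖(Fintype.card ι : ℂ)⁻¹ * ∑ i, g (q i) - (Q : ℂ)⁻¹ * ∑ x, g x‖)).card : ℝ)
      ≤ 4 * ((Q : ℝ) ^ (Fintype.card ι) * Real.exp (-(t ^ 2 * Fintype.card ι / 32))) := by
  set N := Fintype.card ι with hN
  have hNpos : (0:ℝ) < N := by exact_mod_cast Fintype.card_pos
  have hNc : (N : ℂ) ≠ 0 := by exact_mod_cast hNpos.ne'
  have hQc : (Q : ℂ) ≠ 0 := by exact_mod_cast hQ.ne'
  set h := (Q : ℂ)⁻¹ * ∑ x, g x with hh
  have hh1 : ‖h‖ ≤ 1 := by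
    rw [hh, norm_mul, norm_inv, Complex.norm_natCast]
    have : ‖∑ x, g x‖ ≤ Q := by
      refine (norm_sum_le _ _).trans ?_
      refine (Finset.sum_le_sum fun x _ => hg x).trans ?_
      simp
    have hq : (0:ℝ) < Q := by exact_mod_cast hQ
    calc (Q:ℝ)⁻¹ * ‖∑ x, g x‖ ≤ (Q:ℝ)⁻¹ * Q := by gcongr
      _ = 1 := by field_simp
  have key : ∀ c : ℂ, ‖c‖ = 1 → ((Finset.univ.filter (fun q : ι → Fin Q =>
      t / 2 * N ≤ ∑ i, (c * (g (q i) - h)).re)).card : ℝ)
      ≤ (Q : ℝ) ^ N * Real.exp (-(t ^ 2 * N / 32)) := by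
    intro c hc
    have h1 := chernoff (ι := ι) (fun x => (c * (g x - h)).re) (by
      intro x
      refine (Complex.abs_re_le_norm _).trans ?_
      rw [norm_mul, hc, one_mul]
      refine (norm_sub_le _ _).trans ?_
      linarith [hg x]) (by
      rw [← Complex.re_sum, ← Finset.mul_sum, Finset.sum_sub_distrib, Finset.sum_const,
        Finset.card_univ, Fintype.card_fin, nsmul_eq_mul, hh, mul_inv_cancel_left₀ hQc, sub_self,
        mul_zero, Complex.zero_re]) (t / 2) (by positivity)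
    have e1 : (t / 2) ^ 2 * (N:ℝ) / 8 = t ^ 2 * N / 32 := by ring
    rw [← hN, e1] at h1
    exact h1
  have hsub : (Finset.univ.filter (fun q : ι → Fin Q =>
      t < ‖(N : ℂ)⁻¹ * ∑ i, g (q i) - h‖)) ⊆
      ((Finset.univ.filter (fun q : ι → Fin Q => t / 2 * N ≤ ∑ i, ((1:ℂ) * (g (q i) - h)).re)) ∪
      (Finset.univ.filter (fun q : ι → Fin Q => t / 2 * N ≤ ∑ i, ((-1:ℂ) * (g (q i) - h)).re))) ∪
      ((Finset.univ.filter (fun q : ι → Fin Q =>
        t / 2 * N ≤ ∑ i, ((Complex.I:ℂ) * (g (q i) - h)).re)) ∪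
      (Finset.univ.filter (fun q : ι → Fin Q =>
        t / 2 * N ≤ ∑ i, ((-Complex.I:ℂ) * (g (q i) - h)).re))) := by
    intro q hq
    have hq1 := (Finset.mem_filter.mp hq).2
    set z := (N : ℂ)⁻¹ * ∑ i, g (q i) - h with hz
    have hs : ∑ i, (g (q i) - h) = N * z := by
      rw [hz, Finset.sum_sub_distrib, Finset.sum_const, Finset.card_univ, nsmul_eq_mul, mul_sub,
        mul_inv_cancel_left₀ hNc]
    have hc : ∀ c : ℂ, ∑ i, (c * (g (q i) - h)).re = N * (c * z).re := by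
      intro c
      rw [← Complex.re_sum, ← Finset.mul_sum, hs]
      have : c * ((N : ℂ) * z) = ((N : ℝ) : ℂ) * (c * z) := by push_cast; ring
      rw [this, Complex.re_ofReal_mul]
    simp only [Finset.mem_union, Finset.mem_filter, Finset.mem_univ, true_and, hc]
    have hre : ((1:ℂ) * z).re = z.re := by simp
    have hre2 : ((-1:ℂ) * z).re = -z.re := by simp
    have hre3 : (Complex.I * z).re = -z.im := by simp
    have hre4 : (-Complex.I * z).re = z.im := by simp
    rw [hre, hre2, hre3, hre4]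
    have hn := Complex.norm_le_abs_re_add_abs_im z
    by_contra hcon
    push Not at hcon
    obtain ⟨⟨h1, h2⟩, h3, h4⟩ := hcon
    have k1 : |z.re| < t / 2 := by
      rw [abs_lt]
      constructor
      · by_contra hx
        push Not at hx
        nlinarith
      · by_contra hx
        push Not at hx
        nlinarith
    have k2 : |z.im| < t / 2 := by
      rw [abs_lt]
      constructor
      · by_contra hx
        push Not at hx
        nlinarith
      · by_contra hx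
        push Not at hx
        nlinarith
    linarith
  have hcard := Finset.card_le_card hsub
  have hcard2 := hcard.trans ((Finset.card_union_le _ _).trans
    (Nat.add_le_add (Finset.card_union_le _ _) (Finset.card_union_le _ _)))
  have k1 := key 1 (by simp)
  have k2 := key (-1) (by simp)
  have k3 := key Complex.I (by simp)
  have k4 := key (-Complex.I) (by simp)
  have hcard3 : ((Finset.univ.filter (fun q : ι → Fin Q =>
      t < ‖(N : ℂ)⁻¹ * ∑ i, g (q i) - h‖)).card : ℝ) ≤ _ := Nat.cast_le.mpr hcard2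
  push_cast at hcard3
  linarith

/-- the mean of the exponential over an arithmetic progression -/
lemma mean_exp (Q : ℕ) (hQ : 0 < Q) (ξ : ℝ) (hξ : 0 < ξ) (hξQ : ξ ≤ Q) :
    ‖(Q : ℂ)⁻¹ * ∑ x : Fin Q, Complex.exp (-(Complex.I * (ξ * (((x : ℕ) : ℝ) / Q : ℝ))))‖
      ≤ Real.pi / ξ := by
  have hq : (0:ℝ) < Q := by exact_mod_cast hQ
  have hqc : (Q:ℂ) ≠ 0 := by exact_mod_cast hq.ne'
  have hpi := Real.pi_gt_three
  set z := Complex.exp (Complex.I * ((-(ξ / Q) : ℝ) : ℂ)) with hz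
  have h1 : ∀ x : Fin Q, Complex.exp (-(Complex.I * (ξ * (((x : ℕ) : ℝ) / Q : ℝ)))) = z ^ (x : ℕ) := by
    intro x
    rw [hz, ← Complex.exp_nat_mul]
    congr 1
    push_cast
    field_simp
  have hz1 : 2 * ξ / (Real.pi * Q) ≤ ‖z - 1‖ := by
    rw [hz, Complex.norm_exp_I_mul_ofReal_sub_one, Real.norm_eq_abs, abs_mul, abs_two, neg_div,
      Real.sin_neg, abs_neg]
    have h2 : ξ / Q ≤ 1 := by rw [div_le_one hq]; exact hξQ
    have h0 : 0 ≤ ξ / Q := by positivity
    have h3 := Real.mul_le_sin (x := ξ / Q / 2) (by positivity) (by linarith)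
    have h4 : |Real.sin (ξ / Q / 2)| = Real.sin (ξ / Q / 2) := by
      apply abs_of_nonneg
      exact Real.sin_nonneg_of_nonneg_of_le_pi (by positivity) (by linarith)
    rw [h4]
    calc 2 * ξ / (Real.pi * Q) = 2 * (2 / Real.pi * (ξ / Q / 2)) := by field_simp
      _ ≤ _ := by linarith
  have hz2 : z - 1 ≠ 0 := by
    intro h
    rw [h, norm_zero] at hz1
    have : 0 < 2 * ξ / (Real.pi * Q) := by positivity
    linarith
  have hzn : ‖z‖ = 1 := by
    rw [hz, mul_comm]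
    exact Complex.norm_exp_ofReal_mul_I _
  simp only [h1]
  rw [Fin.sum_univ_eq_sum_range (fun i => z ^ i) Q, geom_sum_eq (sub_ne_zero.mp hz2), norm_mul,
    norm_inv, Complex.norm_natCast, norm_div]
  have h5 : ‖z ^ Q - 1‖ ≤ 2 := by
    refine (norm_sub_le _ _).trans ?_
    rw [norm_pow, hzn, one_pow, norm_one]
    norm_num
  have h6 : 0 < 2 * ξ / (Real.pi * Q) := by positivity
  calc (Q:ℝ)⁻¹ * (‖z ^ Q - 1‖ / ‖z - 1‖) ≤ (Q:ℝ)⁻¹ * (2 / (2 * ξ / (Real.pi * Q))) := by gcongr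
    _ = Real.pi / ξ := by field_simp

end

end Pool.Agent.V11282.RJ
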