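import Mathlib
import Pool.Agent.V11282.RJ.Basic

/-!
The kernels `ψ_r(t) = (1 - r) z / (1 - r z)²`, `z = e^{it}`.
-/

set_option autoImplicit false

open MeasureTheory AddCircle Filter Topology

namespace Pool.Agent.V11282.RJ

noncomputable section

/-- the coordinate `e^{it}` -/
def Z (t : TT) : ℂ := (fourier 1 t : ℂ)

lemma Z_coe (x : ℝ) : Z (x : TT) = Complex.exp (Complex.I * x) := by
  unfold Z
  rw [fourier_coe_apply]
  congr 1
  push_cast
  have : (Real.pi : ℂ) ≠ 0 := by exact_mod_cast Real.pi_ne_zero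
  field_simp

lemma norm_Z (t : TT) : ‖Z t‖ = 1 := by
  unfold Z
  rw [fourier_apply, Circle.norm_coe]

lemma Z_cont : Continuous Z := (fourier 1 : C(TT, ℂ)).continuous

lemma Z_add (s t : TT) : Z (s + t) = Z s * Z t := fou_add 1 s t

lemma exists_rep (t : TT) : ∃ x : ℝ, (x : TT) = t ∧ |x| ≤ Real.pi ∧ ‖t‖ = |x| := by
  induction t using QuotientAddGroup.induction_on with
  | H y =>
    have hp := Real.pi_pos
    refine ⟨y - round ((2 * Real.pi)⁻¹ * y) * (2 * Real.pi), ?_, ?_, ?_⟩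
    · have h1 : ((round ((2 * Real.pi)⁻¹ * y) : ℝ) * (2 * Real.pi) : ℝ)
        = (round ((2 * Real.pi)⁻¹ * y)) • (2 * Real.pi) := by simp
      rw [AddCircle.coe_sub, h1, AddCircle.coe_zsmul, AddCircle.coe_period, smul_zero, sub_zero]
    · have h := abs_sub_round ((2 * Real.pi)⁻¹ * y)
      have h2 : y - round ((2 * Real.pi)⁻¹ * y) * (2 * Real.pi)
        = (2 * Real.pi) * ((2 * Real.pi)⁻¹ * y - round ((2 * Real.pi)⁻¹ * y)) := by
        field_simp
      rw [h2, abs_mul, abs_of_pos Real.two_pi_pos]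
      nlinarith
    · exact AddCircle.norm_eq (2 * Real.pi) (x := y)

lemma Z_sub_one_le (t : TT) : ‖Z t - 1‖ ≤ ‖t‖ := by
  obtain ⟨x, hx, -, h⟩ := exists_rep t
  rw [h, ← hx, Z_coe]
  exact Real.norm_exp_I_mul_ofReal_sub_one_le

lemma le_Z_sub_one (t : TT) : 2 / Real.pi * ‖t‖ ≤ ‖Z t - 1‖ := by
  obtain ⟨x, hx, hpi, h⟩ := exists_rep t
  rw [h, ← hx, Z_coe, Complex.norm_exp_I_mul_ofReal_sub_one, Real.norm_eq_abs, abs_mul, abs_two]
  have h1 : |Real.sin (x / 2)| = Real.sin (|x| / 2) := by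
    rcases le_total 0 x with h0 | h0
    · rw [abs_of_nonneg h0, abs_of_nonneg]
      apply Real.sin_nonneg_of_nonneg_of_le_pi (by linarith)
      rw [abs_of_nonneg h0] at hpi
      linarith
    · rw [abs_of_nonpos h0] at hpi ⊢
      rw [show x / 2 = -(-x / 2) by ring, Real.sin_neg, abs_neg, abs_of_nonneg]
      apply Real.sin_nonneg_of_nonneg_of_le_pi (by linarith)
      linarith
  rw [h1]
  have h2 := Real.mul_le_sin (x := |x| / 2) (by positivity) (by linarith)
  have h3 : 2 / Real.pi * |x| = 2 * (2 / Real.pi * (|x| / 2)) := by ring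
  rw [h3]
  linarith

lemma Z_lip (s t : TT) : ‖Z t - Z s‖ ≤ ‖t - s‖ := by
  have h : Z t - Z s = Z s * (Z (t - s) - 1) := by
    rw [mul_sub, ← Z_add, add_sub_cancel, mul_one]
  rw [h, norm_mul, norm_Z, one_mul]
  exact Z_sub_one_le _

/-- basic identity for the denominator -/
lemma den_sq (r : ℝ) (z : ℂ) (hz : ‖z‖ = 1) :
    ‖1 - r * z‖ ^ 2 = (1 - r) ^ 2 + r * ‖z - 1‖ ^ 2 := by
  have h1 : z.re ^ 2 + z.im ^ 2 = 1 := by
    have := Complex.sq_norm z
    rw [hz, Complex.normSq_apply] at this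
    nlinarith
  rw [Complex.sq_norm, Complex.sq_norm, Complex.normSq_apply, Complex.normSq_apply]
  simp
  linear_combination (r ^ 2 - r) * h1

lemma den_ge (r : ℝ) (hr : r ≤ 1) (z : ℂ) (hz : ‖z‖ = 1) (hr0 : 0 ≤ r) : 1 - r ≤ ‖1 - r * z‖ := by
  have h := den_sq r z hz
  have h2 : (1 - r) ^ 2 ≤ ‖1 - r * z‖ ^ 2 := by
    rw [h]
    nlinarith [sq_nonneg ‖z - 1‖, mul_nonneg hr0 (sq_nonneg ‖z - 1‖)]
  exact (pow_le_pow_iff_left₀ (by linarith) (norm_nonneg _) two_ne_zero).mp h2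

lemma den_ne (r : ℝ) (hr : r < 1) (z : ℂ) (hz : ‖z‖ = 1) (hr0 : 0 ≤ r) : 1 - r * z ≠ 0 := by
  have := den_ge r hr.le z hz hr0
  intro h
  rw [h, norm_zero] at this
  linarith

/-- the kernel -/
def psi (r : ℝ) (t : TT) : ℂ := (1 - r) * Z t / (1 - r * Z t) ^ 2

lemma psi_cont (r : ℝ) (hr : r < 1) (hr0 : 0 ≤ r) : Continuous (psi r) := by
  unfold psi
  apply Continuous.div
  · exact continuous_const.mul Z_cont
  · exact (continuous_const.sub (continuous_const.mul Z_cont)).pow 2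
  · intro t
    exact pow_ne_zero 2 (den_ne r hr _ (norm_Z t) hr0)

lemma norm_psi (r : ℝ) (hr : r < 1) (t : TT) :
    ‖psi r t‖ = (1 - r) / ‖1 - r * Z t‖ ^ 2 := by
  unfold psi
  rw [norm_div, norm_mul, norm_Z, mul_one, norm_pow]
  congr 1
  have : (1 - (r : ℂ)) = ((1 - r : ℝ) : ℂ) := by push_cast; ring
  rw [this, Complex.norm_real, Real.norm_eq_abs, abs_of_pos (by linarith)]

/-- near the origin the kernel is large -/
lemma psi_near (r : ℝ) (hr : r < 1) (hr0 : 0 ≤ r) (t : TT) (ht : ‖t‖ ≤ 1 - r) :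
    1 / (4 * (1 - r)) ≤ ‖psi r t‖ := by
  rw [norm_psi r hr]
  have h1 : ‖1 - r * Z t‖ ≤ 2 * (1 - r) := by
    have e : 1 - r * Z t = (1 - r : ℝ) - r * (Z t - 1) := by push_cast; ring
    rw [e]
    refine (norm_sub_le _ _).trans ?_
    rw [Complex.norm_real, Real.norm_eq_abs, abs_of_pos (by linarith), norm_mul,
      Complex.norm_real, Real.norm_eq_abs, abs_of_nonneg hr0]
    have := Z_sub_one_le t
    nlinarith [norm_nonneg (Z t - 1)]
  have h0 : 0 < ‖1 - r * Z t‖ := norm_pos_iff.mpr (den_ne r hr _ (norm_Z t) hr0)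
  rw [div_le_div_iff₀ (by linarith) (by positivity)]
  have : ‖1 - r * Z t‖ ^ 2 ≤ (2 * (1 - r)) ^ 2 := by gcongr
  nlinarith

/-- decay of the kernel away from the origin -/
lemma psi_far (r : ℝ) (hr : r < 1) (hr0 : 1 / 2 ≤ r) (t : TT) (η : ℝ) (hη : 0 < η) (ht : η ≤ ‖t‖) :
    ‖psi r t‖ ≤ 5 * (1 - r) / η ^ 2 := by
  rw [norm_psi r hr]
  have h1 := den_sq r (Z t) (norm_Z t)
  have h2 := le_Z_sub_one t
  have hp := Real.pi_pos
  have hp2 : Real.pi ^ 2 < 10 := by nlinarith [Real.pi_lt_d2]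
  have h3 : (2 / Real.pi * η) ^ 2 ≤ ‖Z t - 1‖ ^ 2 := by
    have : 2 / Real.pi * η ≤ ‖Z t - 1‖ := le_trans (by gcongr) h2
    gcongr
  have h4 : (2 / Real.pi * η) ^ 2 = 4 * η ^ 2 / Real.pi ^ 2 := by
    field_simp
    ring
  have h5 : 4 * η ^ 2 / 10 ≤ (2 / Real.pi * η) ^ 2 := by
    rw [h4]
    apply div_le_div_of_nonneg_left (by positivity) (by positivity) hp2.le
  have h6 : η ^ 2 / 5 ≤ ‖1 - r * Z t‖ ^ 2 := by
    rw [h1]
    nlinarith [sq_nonneg (1 - r), sq_nonneg ‖Z t - 1‖]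
  have h7 : 5 * (1 - r) / η ^ 2 = (1 - r) / (η ^ 2 / 5) := by
    field_simp
  rw [h7]
  apply div_le_div_of_nonneg_left (by linarith) (by positivity) h6

lemma psi_lip (r : ℝ) (hr : r < 1) (hr0 : 0 ≤ r) (s t : TT) :
    ‖psi r t - psi r s‖ ≤ 2 / (1 - r) ^ 3 * ‖t - s‖ := by
  have hz := den_ne r hr _ (norm_Z t) hr0
  have hw := den_ne r hr _ (norm_Z s) hr0
  have e : psi r t - psi r s = (1 - r : ℝ) * ((Z t - Z s) * (1 - r ^ 2 * (Z t * Z s))) /
      ((1 - r * Z t) ^ 2 * (1 - r * Z s) ^ 2) := by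
    unfold psi
    push_cast
    field_simp
    ring
  rw [e, norm_div, norm_mul, norm_mul, norm_mul, norm_pow, norm_pow, Complex.norm_real,
    Real.norm_eq_abs, abs_of_pos (by linarith : (0:ℝ) < 1 - r)]
  have h1 : ‖1 - (r : ℂ) ^ 2 * (Z t * Z s)‖ ≤ 2 := by
    refine (norm_sub_le _ _).trans ?_
    rw [norm_one, norm_mul, norm_mul, norm_Z, norm_Z, norm_pow, Complex.norm_real,
      Real.norm_eq_abs, abs_of_nonneg hr0]
    nlinarith
  have h2 := Z_lip s t
  have h3 := den_ge r hr.le _ (norm_Z t) hr0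
  have h4 := den_ge r hr.le _ (norm_Z s) hr0
  have h5 : (1 - r) ^ 4 ≤ ‖1 - r * Z t‖ ^ 2 * ‖1 - r * Z s‖ ^ 2 := by
    have : (1 - r) ^ 4 = (1 - r) ^ 2 * (1 - r) ^ 2 := by ring
    rw [this]
    have h0 : 0 ≤ 1 - r := by linarith
    gcongr
  have h6 : (0:ℝ) < 1 - r := by linarith
  calc (1 - r) * (‖Z t - Z s‖ * ‖1 - (r : ℂ) ^ 2 * (Z t * Z s)‖) /
      (‖1 - r * Z t‖ ^ 2 * ‖1 - r * Z s‖ ^ 2)
      ≤ (1 - r) * (‖t - s‖ * 2) / (1 - r) ^ 4 := by gcongr
    _ = 2 / (1 - r) ^ 3 * ‖t - s‖ := by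
      field_simp

/-- a bounded sequence with `a n = r a (n-1)` for `n < 0` vanishes there -/
lemma van (a : ℤ → ℂ) (r B : ℝ) (hr0 : 0 ≤ r) (hr : r < 1) (hB : ∀ n, ‖a n‖ ≤ B)
    (h : ∀ n < 0, a n = r * a (n - 1)) (n : ℤ) (hn : n < 0) : a n = 0 := by
  have h1 : ∀ k : ℕ, ∀ m < 0, ‖a m‖ ≤ r ^ k * B := by
    intro k
    induction k with
    | zero => intro m _; simpa using hB m
    | succ k ih =>
      intro m hm
      rw [h m hm, norm_mul, Complex.norm_real, Real.norm_eq_abs, abs_of_nonneg hr0, pow_succ']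
      have := ih (m - 1) (by omega)
      nlinarith
  have h2 : Tendsto (fun k : ℕ => r ^ k * B) atTop (𝓝 (0 * B)) :=
    (tendsto_pow_atTop_nhds_zero_of_lt_one hr0 hr).mul_const B
  rw [zero_mul] at h2
  have h3 := ge_of_tendsto' h2 (fun k => h1 k n hn)
  exact norm_le_zero_iff.mp h3

/-- Fourier coefficients of continuous functions -/
lemma fcoef_bound (g : TT → ℂ) (hg : Continuous g) : ∃ B : ℝ, ∀ n, ‖fourierCoeff g n‖ ≤ B := by
  refine ⟨∫ t, ‖g t‖ ∂haarAddCircle, fun n => ?_⟩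
  unfold fourierCoeff
  refine (norm_integral_le_integral_norm _).trans (le_of_eq ?_)
  congr 1
  funext t
  rw [norm_smul, fourier_apply, Circle.norm_coe, one_mul]

lemma cont_int {g : TT → ℂ} (hg : Continuous g) : Integrable g haarAddCircle :=
  hg.integrable_of_hasCompactSupport (HasCompactSupport.of_compactSpace _)

lemma fcoef_Z (g : TT → ℂ) (n : ℤ) :
    fourierCoeff (fun t => Z t * g t) n = fourierCoeff g (n - 1) := by
  unfold fourierCoeff Z
  congr 1
  funext t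
  have : (fourier (-(n - 1)) t : ℂ) = fourier (-n) t * fourier 1 t := by
    rw [← fourier_add]
    congr 1
    ring_nf
  rw [this]
  simp only [smul_eq_mul]
  ring

lemma fcoef_one (n : ℤ) (hn : n ≠ 0) : fourierCoeff (fun _ : TT => (1 : ℂ)) n = 0 := by
  have h := fourierCoeff_fourier (T := 2 * Real.pi) 0
  have h2 := congrFun h n
  simp only [ne_eq, hn, not_false_eq_true, Pi.single_eq_of_ne] at h2
  rw [← h2]
  congr 1
  funext t
  simp

/-- the kernel has no Fourier coefficients of index `≤ 0` -/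
lemma psi_fc (r : ℝ) (hr : r < 1) (hr0 : 0 ≤ r) (n : ℤ) (hn : n ≤ 0) :
    fourierCoeff (psi r) n = 0 := by
  set g : TT → ℂ := fun t => 1 / (1 - r * Z t) with hg
  have hgc : Continuous g := by
    apply Continuous.div continuous_const
    · exact continuous_const.sub (continuous_const.mul Z_cont)
    · intro t
      exact den_ne r hr _ (norm_Z t) hr0
  have hZg : Continuous (fun t => Z t * g t) := Z_cont.mul hgc
  have e1 : g = (fun _ => (1:ℂ)) + ((r : ℂ) • fun t => Z t * g t) := by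
    funext t
    have hd := den_ne r hr _ (norm_Z t) hr0
    simp only [hg, Pi.add_apply, Pi.smul_apply, smul_eq_mul]
    field_simp
    ring
  have g1 : ∀ m < 0, fourierCoeff g m = r * fourierCoeff g (m - 1) := by
    intro m hm
    conv_lhs => rw [e1]
    rw [fourierCoeff.add (cont_int continuous_const) ((cont_int hZg).smul _), Pi.add_apply,
      fourierCoeff.const_smul, fcoef_Z, fcoef_one m hm.ne, zero_add, smul_eq_mul]
  obtain ⟨B1, hB1⟩ := fcoef_bound g hgc
  have g2 := van _ r B1 hr0 hr hB1 g1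
  set h : TT → ℂ := fun t => g t * g t with hh
  have hhc : Continuous h := hgc.mul hgc
  have hZh : Continuous (fun t => Z t * h t) := Z_cont.mul hhc
  have e2 : h = g + ((r : ℂ) • fun t => Z t * h t) := by
    funext t
    have hd := den_ne r hr _ (norm_Z t) hr0
    simp only [hg, hh, Pi.add_apply, Pi.smul_apply, smul_eq_mul]
    field_simp
    ring
  have h1 : ∀ m < 0, fourierCoeff h m = r * fourierCoeff h (m - 1) := by
    intro m hm
    conv_lhs => rw [e2]
    rw [fourierCoeff.add (cont_int hgc) ((cont_int hZh).smul _), Pi.add_apply,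
      fourierCoeff.const_smul, fcoef_Z, g2 m hm, zero_add, smul_eq_mul]
  obtain ⟨B2, hB2⟩ := fcoef_bound h hhc
  have h2 := van _ r B2 hr0 hr hB2 h1
  have e3 : psi r = ((1 - r : ℂ)) • fun t => Z t * h t := by
    funext t
    have hd := den_ne r hr _ (norm_Z t) hr0
    simp only [psi, hg, hh, Pi.smul_apply, smul_eq_mul]
    field_simp
  rw [e3, fourierCoeff.const_smul, fcoef_Z, h2 (n - 1) (by omega), smul_zero]

/-- the kernel as an element of `L¹` -/
def PsiL (r : ℝ) (hr : r < 1) (hr0 : 0 ≤ r) : L1 :=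
  MemLp.toLp (psi r) (memLp_one_iff_integrable.mpr (cont_int (psi_cont r hr hr0)))

lemma PsiL_coe (r : ℝ) (hr : r < 1) (hr0 : 0 ≤ r) :
    (PsiL r hr hr0 : TT → ℂ) =ᵐ[haarAddCircle] psi r := MemLp.coeFn_toLp _

lemma PsiL_mem (r : ℝ) (hr : r < 1) (hr0 : 0 ≤ r) : PsiL r hr hr0 ∈ H10 := by
  rw [mem_H10]
  intro n hn
  rw [fc_apply, fourierCoeff_congr_ae (PsiL_coe r hr hr0), psi_fc r hr hr0 n hn]

lemma PsiL_norm (r : ℝ) (hr : r < 1) (hr0 : 0 ≤ r) :
    ‖PsiL r hr hr0‖ = ∫ t, ‖psi r t‖ ∂haarAddCircle := by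
  rw [norm_L1]
  apply integral_congr_ae
  filter_upwards [PsiL_coe r hr hr0] with t ht
  rw [ht]

lemma haar_ball (ρ : ℝ) (h : ρ ≤ Real.pi) (h0 : 0 ≤ ρ) :
    (haarAddCircle : Measure TT).real (Metric.closedBall 0 ρ) = ρ / Real.pi := by
  have h1 := AddCircle.volume_closedBall (T := 2 * Real.pi) (x := 0) ρ
  rw [volume_eq_smul_haarAddCircle, Measure.smul_apply, smul_eq_mul, min_eq_right (by linarith)] at h1
  have h2 := congrArg ENNReal.toReal h1
  rw [ENNReal.toReal_mul, ENNReal.toReal_ofReal Real.two_pi_pos.le,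
    ENNReal.toReal_ofReal (by linarith)] at h2
  have hp := Real.pi_pos
  rw [measureReal_def]
  field_simp
  nlinarith

/-- lower bound for the norm of the kernel -/
lemma PsiL_norm_ge (r : ℝ) (hr : r < 1) (hr0 : 0 ≤ r) :
    1 / (4 * Real.pi) ≤ ‖PsiL r hr hr0‖ := by
  rw [PsiL_norm]
  have hp := Real.pi_pos
  have hp3 := Real.pi_gt_three
  have hi : Integrable (fun t => ‖psi r t‖) haarAddCircle := (cont_int (psi_cont r hr hr0)).norm
  calc 1 / (4 * Real.pi) = ((1 - r) / Real.pi) * (1 / (4 * (1 - r))) := by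
        have : (1 - r) ≠ 0 := by linarith
        field_simp
    _ = ∫ t in Metric.closedBall (0 : TT) (1 - r), (1 / (4 * (1 - r))) ∂haarAddCircle := by
        rw [setIntegral_const, haar_ball (1 - r) (by linarith) (by linarith), smul_eq_mul]
    _ ≤ ∫ t in Metric.closedBall (0 : TT) (1 - r), ‖psi r t‖ ∂haarAddCircle := by
        apply setIntegral_mono_on
        · exact integrableOn_const (by exact measure_ne_top _ _)
        · exact hi.integrableOn
        · exact Metric.isClosed_closedBall.measurableSet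
        · intro t ht
          exact psi_near r hr hr0 t (by simpa using ht)
    _ ≤ ∫ t, ‖psi r t‖ ∂haarAddCircle :=
        setIntegral_le_integral hi (Eventually.of_forall fun t => norm_nonneg _)

lemma tr_PsiL_coe (r : ℝ) (hr : r < 1) (hr0 : 0 ≤ r) (y : TT) :
    (tr y (PsiL r hr hr0) : TT → ℂ) =ᵐ[haarAddCircle] fun t => psi r (t - y) := by
  have h3 := (measurePreserving_sub_right haarAddCircle y).quasiMeasurePreserving.ae_eq_comp
    (PsiL_coe r hr hr0)
  filter_upwards [tr_coe y (PsiL r hr hr0), h3] with t h1 h2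
  rw [h1]
  exact h2

/-- translates of the kernel depend on the translation in a Lipschitz way -/
lemma PsiL_lip (r : ℝ) (hr : r < 1) (hr0 : 0 ≤ r) (x y : TT) :
    ‖tr x (PsiL r hr hr0) - tr y (PsiL r hr hr0)‖ ≤ 2 / (1 - r) ^ 3 * ‖x - y‖ := by
  rw [norm_L1]
  have h1 := tr_PsiL_coe r hr hr0
  have h2 : ∀ᵐ t ∂(haarAddCircle : Measure TT),
      ‖(tr x (PsiL r hr hr0) - tr y (PsiL r hr hr0) : L1) t‖ ≤ 2 / (1 - r) ^ 3 * ‖x - y‖ := by
    filter_upwards [h1 x, h1 y, Lp.coeFn_sub (tr x (PsiL r hr hr0)) (tr y (PsiL r hr hr0))]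
      with t hx hy hs
    rw [hs, Pi.sub_apply, hx, hy]
    refine (psi_lip r hr hr0 _ _).trans (le_of_eq ?_)
    congr 1
    rw [show t - x - (t - y) = -(x - y) by abel, norm_neg]
  calc ∫ t, ‖(tr x (PsiL r hr hr0) - tr y (PsiL r hr hr0) : L1) t‖ ∂haarAddCircle
      ≤ ∫ _t : TT, (2 / (1 - r) ^ 3 * ‖x - y‖) ∂haarAddCircle := by
        apply integral_mono_ae (int_L1 _).norm (integrable_const _) h2
    _ = 2 / (1 - r) ^ 3 * ‖x - y‖ := by simp

end

end Pool.Agent.V11282.RJ
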