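import Mathlib
import Pool.Agent.V11282.RJ.Psi

/-!
Lower bound for the norm of a combination of well separated translates of the kernel.
-/

set_option autoImplicit false

open MeasureTheory AddCircle Filter Topology

namespace Pool.Agent.V11282.RJ

noncomputable section

lemma lb_pointwise {W : Type*} [Fintype W] (w : W → ℝ) (hw : ∀ ω, 0 ≤ w ω) (hw1 : ∑ ω, w ω = 1)
    (e : W → ℂ) (he : ∀ ω, ‖e ω‖ = 1) (s : W → TT) (D κ : ℝ)
    (hsep : ∀ ω η, (s ω = s η ∧ e ω = e η) ∨ D ≤ ‖s ω - s η‖)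
    (g : TT → ℂ) (hκ0 : 0 ≤ κ) (hκ : ∀ t, D / 2 ≤ ‖t‖ → ‖g t‖ ≤ κ) (t : TT) :
    ∑ ω, w ω * ‖g (t - s ω)‖ - 2 * κ ≤ ‖∑ ω, ((w ω : ℂ) * e ω) * g (t - s ω)‖ := by
  classical
  set P : W → Prop := fun ω => ‖t - s ω‖ < D / 2 with hP
  have s1 := Finset.sum_filter_add_sum_filter_not Finset.univ P
    (fun ω => w ω * ‖g (t - s ω)‖)
  have s2 := Finset.sum_filter_add_sum_filter_not Finset.univ P
    (fun ω => ((w ω : ℂ) * e ω) * g (t - s ω))
  have hterm : ∀ ω, ‖((w ω : ℂ) * e ω) * g (t - s ω)‖ = w ω * ‖g (t - s ω)‖ := by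
    intro ω
    rw [norm_mul, norm_mul, he, mul_one, Complex.norm_real, Real.norm_eq_abs, abs_of_nonneg (hw ω)]
  have hfar : ∑ ω ∈ Finset.univ.filter (fun ω => ¬ P ω), w ω * ‖g (t - s ω)‖ ≤ κ := by
    calc ∑ ω ∈ Finset.univ.filter (fun ω => ¬ P ω), w ω * ‖g (t - s ω)‖
        ≤ ∑ ω ∈ Finset.univ.filter (fun ω => ¬ P ω), w ω * κ := by
          apply Finset.sum_le_sum
          intro ω hω
          have h2 : D / 2 ≤ ‖t - s ω‖ := by
            have := (Finset.mem_filter.mp hω).2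
            simpa [hP] using this
          exact mul_le_mul_of_nonneg_left (hκ _ h2) (hw ω)
      _ ≤ ∑ ω, w ω * κ := by
          apply Finset.sum_le_sum_of_subset_of_nonneg (Finset.filter_subset _ _)
          intro ω _ _
          exact mul_nonneg (hw ω) hκ0
      _ = κ := by rw [← Finset.sum_mul, hw1, one_mul]
  have hfar2 : ‖∑ ω ∈ Finset.univ.filter (fun ω => ¬ P ω), ((w ω : ℂ) * e ω) * g (t - s ω)‖ ≤ κ := by
    refine (norm_sum_le _ _).trans ?_
    simp only [hterm]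
    exact hfar
  have hnear : ‖∑ ω ∈ Finset.univ.filter P, ((w ω : ℂ) * e ω) * g (t - s ω)‖
      = ∑ ω ∈ Finset.univ.filter P, w ω * ‖g (t - s ω)‖ := by
    rcases (Finset.univ.filter P).eq_empty_or_nonempty with h0 | ⟨ω0, h0⟩
    · rw [h0]; simp
    · have hsame : ∀ ω ∈ Finset.univ.filter P, s ω = s ω0 ∧ e ω = e ω0 := by
        intro ω hω
        rcases hsep ω ω0 with h | h
        · exact h
        · exfalso
          have h1 : ‖t - s ω‖ < D / 2 := (Finset.mem_filter.mp hω).2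
          have h2 : ‖t - s ω0‖ < D / 2 := (Finset.mem_filter.mp h0).2
          have h3 : ‖s ω - s ω0‖ ≤ ‖t - s ω0‖ + ‖t - s ω‖ := by
            have : s ω - s ω0 = (t - s ω0) - (t - s ω) := by abel
            rw [this]
            exact norm_sub_le _ _
          linarith
      have e1 : ∑ ω ∈ Finset.univ.filter P, ((w ω : ℂ) * e ω) * g (t - s ω)
          = ((∑ ω ∈ Finset.univ.filter P, w ω : ℝ) : ℂ) * (e ω0 * g (t - s ω0)) := by
        rw [Complex.ofReal_sum, Finset.sum_mul]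
        apply Finset.sum_congr rfl
        intro ω hω
        obtain ⟨h1, h2⟩ := hsame ω hω
        rw [h1, h2]
        ring
      have e2 : ∑ ω ∈ Finset.univ.filter P, w ω * ‖g (t - s ω)‖
          = (∑ ω ∈ Finset.univ.filter P, w ω) * ‖g (t - s ω0)‖ := by
        rw [Finset.sum_mul]
        apply Finset.sum_congr rfl
        intro ω hω
        rw [(hsame ω hω).1]
      rw [e1, e2, norm_mul, norm_mul, he, one_mul, Complex.norm_real, Real.norm_eq_abs,
        abs_of_nonneg (Finset.sum_nonneg fun ω _ => hw ω)]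
  have h3 := norm_sub_norm_le (∑ ω ∈ Finset.univ.filter P, ((w ω : ℂ) * e ω) * g (t - s ω))
    (-(∑ ω ∈ Finset.univ.filter (fun ω => ¬ P ω), ((w ω : ℂ) * e ω) * g (t - s ω)))
  rw [sub_neg_eq_add, s2, norm_neg, hnear] at h3
  linarith

lemma lb {W : Type*} [Fintype W] (w : W → ℝ) (hw : ∀ ω, 0 ≤ w ω) (hw1 : ∑ ω, w ω = 1)
    (e : W → ℂ) (he : ∀ ω, ‖e ω‖ = 1) (s : W → TT) (D : ℝ) (hD : 0 < D)
    (hsep : ∀ ω η, (s ω = s η ∧ e ω = e η) ∨ D ≤ ‖s ω - s η‖)
    (r : ℝ) (hr : r < 1) (hr0 : 0 ≤ r) (hr2 : 1 / 2 ≤ r) :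
    ‖PsiL r hr hr0‖ - 40 * (1 - r) / D ^ 2
      ≤ ‖∑ ω, ((w ω : ℂ) * e ω) • tr (s ω) (PsiL r hr hr0)‖ := by
  have hae : ∀ᵐ t ∂(haarAddCircle : Measure TT),
      (∑ ω, ((w ω : ℂ) * e ω) • tr (s ω) (PsiL r hr hr0) : L1) t
        = ∑ ω, ((w ω : ℂ) * e ω) * psi r (t - s ω) := by
    have h1 : ∀ᵐ t ∂(haarAddCircle : Measure TT), ∀ ω,
        (((w ω : ℂ) * e ω) • tr (s ω) (PsiL r hr hr0) : L1) t
          = ((w ω : ℂ) * e ω) * psi r (t - s ω) := by
      rw [ae_all_iff]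
      intro ω
      filter_upwards [Lp.coeFn_smul ((w ω : ℂ) * e ω) (tr (s ω) (PsiL r hr hr0)),
        tr_PsiL_coe r hr hr0 (s ω)] with t h1 h2
      rw [h1, Pi.smul_apply, h2, smul_eq_mul]
    have h2 := Lp.coeFn_fun_finsetSum Finset.univ
      (fun ω => ((w ω : ℂ) * e ω) • tr (s ω) (PsiL r hr hr0))
    filter_upwards [h1, h2] with t h1 h2
    rw [h2]
    exact Finset.sum_congr rfl fun ω _ => h1 ω
  have hint : ∀ ω, Integrable (fun t => ‖psi r (t - s ω)‖) haarAddCircle := fun ω =>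
    (cont_int ((psi_cont r hr hr0).comp (continuous_id.sub continuous_const))).norm
  have hκ : ∀ t, D / 2 ≤ ‖t‖ → ‖psi r t‖ ≤ 5 * (1 - r) / (D / 2) ^ 2 :=
    fun t ht => psi_far r hr hr2 t (D / 2) (by positivity) ht
  have hκ0 : 0 ≤ 5 * (1 - r) / (D / 2) ^ 2 := by
    have : 0 ≤ 1 - r := by linarith
    positivity
  have hpt := fun t => lb_pointwise w hw hw1 e he s D _ hsep (psi r) hκ0 hκ t
  have e1 : ∫ t, ‖(∑ ω, ((w ω : ℂ) * e ω) • tr (s ω) (PsiL r hr hr0) : L1) t‖ ∂haarAddCircle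
      = ∫ t, ‖∑ ω, ((w ω : ℂ) * e ω) * psi r (t - s ω)‖ ∂haarAddCircle := by
    apply integral_congr_ae
    filter_upwards [hae] with t ht
    rw [ht]
  have e2 : ∀ ω, ∫ t, ‖psi r (t - s ω)‖ ∂haarAddCircle = ‖PsiL r hr hr0‖ := by
    intro ω
    rw [PsiL_norm]
    exact integral_sub_right_eq_self (μ := haarAddCircle) (fun t : TT => ‖psi r t‖) (s ω)
  have e3 : ∫ t, (∑ ω, w ω * ‖psi r (t - s ω)‖ - 2 * (5 * (1 - r) / (D / 2) ^ 2)) ∂haarAddCircle
      = ‖PsiL r hr hr0‖ - 40 * (1 - r) / D ^ 2 := by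
    rw [integral_sub (integrable_finset_sum _ fun ω _ => (hint ω).const_mul _)
      (integrable_const _), integral_finset_sum _ (fun ω _ => (hint ω).const_mul _)]
    simp only [integral_const_mul, e2]
    rw [← Finset.sum_mul, hw1, one_mul]
    simp
    field_simp
    ring
  rw [← e3, norm_L1 (∑ ω, ((w ω : ℂ) * e ω) • tr (s ω) (PsiL r hr hr0)), e1]
  apply integral_mono_ae
  · exact (integrable_finset_sum _ fun ω _ => (hint ω).const_mul _).sub (integrable_const _)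
  · apply Integrable.norm
    apply integrable_finset_sum
    intro ω _
    exact (cont_int ((psi_cont r hr hr0).comp (continuous_id.sub continuous_const))).const_mul _
  · exact Eventually.of_forall hpt

end

end Pool.Agent.V11282.RJ
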