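import Mathlib
import Pool.Agent.V11282.RJ.LB

/-!
Averages of translations, Cesàro means of their powers.
-/

set_option autoImplicit false

open MeasureTheory AddCircle Filter Topology

namespace Pool.Agent.V11282.RJ

noncomputable section

/-- uniform average of translations -/
def Av {ι : Type*} [Fintype ι] (x : ι → TT) : L1 →L[ℂ] L1 :=
  (Fintype.card ι : ℂ)⁻¹ • ∑ i, tr (x i)

/-- partial sums of a word -/
def ws {M : ℕ} (i : ℕ) (z : Fin M → TT) : TT := ∑ k : Fin M, if (k : ℕ) < i then z k else 0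

lemma ws_zero {M : ℕ} (z : Fin M → TT) : ws 0 z = 0 := by
  simp [ws]

lemma ws_cons {M : ℕ} (i : ℕ) (a : TT) (z : Fin M → TT) :
    ws (i + 1) (Fin.cons a z : Fin (M + 1) → TT) = a + ws i z := by
  simp [ws, Fin.sum_univ_succ]

lemma commute_tr (x y : TT) : Commute (tr x) (tr y) := by
  unfold Commute SemiconjBy
  rw [← tr_add, ← tr_add, add_comm]

lemma commute_Av {ι κ : Type*} [Fintype ι] [Fintype κ] (x : ι → TT) (y : κ → TT) :
    Commute (Av x) (Av y) := by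
  unfold Av
  apply Commute.smul_left
  apply Commute.smul_right
  apply Commute.sum_left
  intro i _
  apply Commute.sum_right
  intro j _
  exact commute_tr _ _

lemma commute_tr_Av {ι : Type*} [Fintype ι] (x : TT) (y : ι → TT) :
    Commute (tr x) (Av y) := by
  unfold Av
  apply Commute.smul_right
  apply Commute.sum_right
  intro j _
  exact commute_tr _ _

lemma Av_apply {ι : Type*} [Fintype ι] (x : ι → TT) (f : L1) :
    Av x f = (Fintype.card ι : ℂ)⁻¹ • ∑ i, tr (x i) f := by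
  simp [Av, ContinuousLinearMap.sum_apply]

lemma norm_Av_le {ι : Type*} [Fintype ι] [Nonempty ι] (x : ι → TT) (f : L1) :
    ‖Av x f‖ ≤ ‖f‖ := by
  rw [Av_apply, norm_smul, norm_inv, Complex.norm_natCast]
  have h : ‖∑ i, tr (x i) f‖ ≤ (Fintype.card ι : ℝ) * ‖f‖ := by
    refine (norm_sum_le _ _).trans ?_
    simp [norm_tr]
  have hc : (0:ℝ) < Fintype.card ι := by exact_mod_cast Fintype.card_pos
  calc (Fintype.card ι : ℝ)⁻¹ * ‖∑ i, tr (x i) f‖
      ≤ (Fintype.card ι : ℝ)⁻¹ * ((Fintype.card ι : ℝ) * ‖f‖) := by gcongr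
    _ = ‖f‖ := by field_simp

lemma word_avg {ι : Type*} [Fintype ι] [Nonempty ι] (x : ι → TT) (M : ℕ) : ∀ i, i ≤ M →
    ((Fintype.card ι : ℂ)⁻¹) ^ M • ∑ ω : Fin M → ι, tr (ws i (x ∘ ω)) = Av x ^ i := by
  have hc : (Fintype.card ι : ℂ) ≠ 0 := by exact_mod_cast Fintype.card_ne_zero
  induction M with
  | zero =>
    intro i hi
    obtain rfl : i = 0 := by omega
    simp [ws_zero, tr_zero]
  | succ M ih =>
    intro i hi
    rcases i with _ | i
    · simp only [ws_zero, tr_zero, Finset.sum_const, Finset.card_univ, Fintype.card_fun,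
        Fintype.card_fin, pow_zero]
      rw [← Nat.cast_smul_eq_nsmul ℂ, smul_smul]
      push_cast
      rw [← mul_pow, inv_mul_cancel₀ hc, one_pow, one_smul]
    · have h1 : ∑ ω : Fin (M + 1) → ι, tr (ws (i + 1) (x ∘ ω))
          = ∑ p : ι × (Fin M → ι), tr (x p.1) * tr (ws i (x ∘ p.2)) := by
        symm
        apply Fintype.sum_equiv (Fin.consEquiv (fun _ => ι))
        rintro ⟨a, ω⟩
        rw [← tr_add, ← ws_cons]
        congr 2
        funext k
        refine Fin.cases ?_ (fun k => ?_) k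
        · simp [Fin.consEquiv]
        · simp [Fin.consEquiv]
      rw [h1, Fintype.sum_prod_type]
      simp only
      rw [← Finset.sum_mul_sum, pow_succ', ← smul_mul_smul_comm,
        ih i (by omega), pow_succ' (Av x)]
      rfl

/-- Cesàro mean of powers -/
def PW {ι : Type*} [Fintype ι] (M : ℕ) (c : ℂ) (x : ι → TT) : L1 →L[ℂ] L1 :=
  (M : ℂ)⁻¹ • ∑ i : Fin M, (c • Av x) ^ (i : ℕ)

lemma norm_pow_le {ι : Type*} [Fintype ι] [Nonempty ι] (c : ℂ) (hc : ‖c‖ = 1) (x : ι → TT)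
    (i : ℕ) (f : L1) : ‖((c • Av x) ^ i) f‖ ≤ ‖f‖ := by
  induction i with
  | zero => simp
  | succ i ih =>
    rw [pow_succ']
    change ‖(c • Av x) (((c • Av x) ^ i) f)‖ ≤ ‖f‖
    rw [ContinuousLinearMap.smul_apply, norm_smul, hc, one_mul]
    exact (norm_Av_le x _).trans ih

lemma PW_apply {ι : Type*} [Fintype ι] (M : ℕ) (c : ℂ) (x : ι → TT) (f : L1) :
    PW M c x f = (M : ℂ)⁻¹ • ∑ i : Fin M, ((c • Av x) ^ (i : ℕ)) f := by
  unfold PW
  rw [ContinuousLinearMap.smul_apply, ContinuousLinearMap.sum_apply]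

lemma norm_PW_le {ι : Type*} [Fintype ι] [Nonempty ι] (M : ℕ) (hM : 0 < M) (c : ℂ)
    (hc : ‖c‖ = 1) (x : ι → TT) (f : L1) : ‖PW M c x f‖ ≤ ‖f‖ := by
  rw [PW_apply, norm_smul, norm_inv, Complex.norm_natCast]
  have h : ‖∑ i : Fin M, ((c • Av x) ^ (i : ℕ)) f‖ ≤ (M : ℝ) * ‖f‖ := by
    refine (norm_sum_le _ _).trans ?_
    refine (Finset.sum_le_sum fun (i : Fin M) _ => norm_pow_le c hc x (i : ℕ) f).trans ?_
    simp
  have hc : (0:ℝ) < M := by exact_mod_cast hM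
  calc (M : ℝ)⁻¹ * ‖∑ i : Fin M, ((c • Av x) ^ (i : ℕ)) f‖
      ≤ (M : ℝ)⁻¹ * ((M : ℝ) * ‖f‖) := by gcongr
    _ = ‖f‖ := by field_simp

lemma PW_near {ι : Type*} [Fintype ι] [Nonempty ι] (M : ℕ) (hM : 0 < M) (c : ℂ)
    (hc : ‖c‖ = 1) (x : ι → TT) (f : L1) :
    ‖(c • Av x) (PW M c x f) - PW M c x f‖ ≤ 2 / M * ‖f‖ := by
  have h1 : (c • Av x) * PW M c x - PW M c x = (M : ℂ)⁻¹ • ((c • Av x) ^ M - 1) := by
    unfold PW
    rw [mul_smul_comm, ← smul_sub, Fin.sum_univ_eq_sum_range (fun i => (c • Av x) ^ i) M,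
      ← mul_geom_sum]
    rw [sub_mul, one_mul]
  have h2 : (c • Av x) (PW M c x f) - PW M c x f
      = (M : ℂ)⁻¹ • (((c • Av x) ^ M) f - f) := by
    have := congrArg (fun T : L1 →L[ℂ] L1 => T f) h1
    simpa using this
  rw [h2, norm_smul, norm_inv, Complex.norm_natCast]
  have h3 : ‖((c • Av x) ^ M) f - f‖ ≤ 2 * ‖f‖ := by
    refine (norm_sub_le _ _).trans ?_
    have := norm_pow_le c hc x M f
    linarith
  calc (M : ℝ)⁻¹ * ‖((c • Av x) ^ M) f - f‖ ≤ (M : ℝ)⁻¹ * (2 * ‖f‖) := by gcongr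
    _ = 2 / M * ‖f‖ := by ring

lemma commute_PW {ι : Type*} [Fintype ι] (M : ℕ) (c : ℂ) (x : ι → TT) (T : L1 →L[ℂ] L1)
    (hT : Commute T (Av x)) : Commute T (PW M c x) := by
  unfold PW
  apply Commute.smul_right
  apply Commute.sum_right
  intro i _
  apply Commute.pow_right
  exact Commute.smul_right hT c

lemma PW_words {ι : Type*} [Fintype ι] [Nonempty ι] (M : ℕ) (c : ℂ) (x : ι → TT) :
    PW M c x = ((M : ℂ)⁻¹ * ((Fintype.card ι : ℂ)⁻¹) ^ M) •
      ∑ p : Fin M × (Fin M → ι), c ^ (p.1 : ℕ) • tr (ws p.1 (x ∘ p.2)) := by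
  unfold PW
  rw [mul_smul, Fintype.sum_prod_type, Finset.smul_sum (r := ((Fintype.card ι : ℂ)⁻¹) ^ M)]
  congr 1
  apply Finset.sum_congr rfl
  intro i _
  simp only
  rw [← Finset.smul_sum, smul_comm, word_avg x M i i.2.le, smul_pow]

end

end Pool.Agent.V11282.RJ
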