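import Mathlib
import Pool.Agent.V11282.RJ.Ops

/-!
The approximate eigenvectors.
-/

set_option autoImplicit false

open MeasureTheory AddCircle Filter Topology

namespace Pool.Agent.V11282.RJ

noncomputable section

lemma comm_app {S T : L1 →L[ℂ] L1} (h : Commute S T) (f : L1) : S (T f) = T (S f) := by
  have := congrArg (fun U : L1 →L[ℂ] L1 => U f) h.eq
  simpa using this

lemma near_a {ι : Type*} [Fintype ι] [Nonempty ι] (M : ℕ) (hM : 0 < M) (a : ℂ)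
    (ha : ‖a‖ = 1) (x : ι → TT) (h : L1) :
    ‖Av x (PW M (starRingEnd ℂ a) x h) - a • PW M (starRingEnd ℂ a) x h‖ ≤ 2 / M * ‖h‖ := by
  have hc : ‖starRingEnd ℂ a‖ = 1 := by simpa using ha
  have h1 := PW_near M hM (starRingEnd ℂ a) hc x h
  have h3 : a * starRingEnd ℂ a = 1 := by
    rw [Complex.mul_conj, Complex.normSq_eq_norm_sq, ha]
    norm_num
  have h2 : Av x (PW M (starRingEnd ℂ a) x h) - a • PW M (starRingEnd ℂ a) x h
      = a • ((starRingEnd ℂ a • Av x) (PW M (starRingEnd ℂ a) x h)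
        - PW M (starRingEnd ℂ a) x h) := by
    rw [ContinuousLinearMap.smul_apply, smul_sub, smul_smul, h3, one_smul]
  rw [h2, norm_smul, ha, one_mul]
  exact h1

lemma eig {ι κ0 κ1 : Type*} [Fintype ι] [Nonempty ι] [Fintype κ0] [Nonempty κ0] [Fintype κ1]
    [Nonempty κ1] (M : ℕ) (hM : 0 < M) (y : ι → TT) (x0 : κ0 → TT) (x1 : κ1 → TT) (a b : ℂ)
    (ha : ‖a‖ = 1) (hb : ‖b‖ = 1) (g f : L1)
    (hf : f = PW M 1 y (PW M (starRingEnd ℂ a) x0 (PW M (starRingEnd ℂ b) x1 g))) :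
    ‖Av y ((1 / 2 : ℂ) • (Av x0 f + Av x1 f)) - ((a + b) / 2) • f‖ ≤ 4 / M * ‖g‖ := by
  have hca : ‖starRingEnd ℂ a‖ = 1 := by simpa using ha
  have hcb : ‖starRingEnd ℂ b‖ = 1 := by simpa using hb
  have hfg : ‖f‖ ≤ ‖g‖ := by
    rw [hf]
    exact (norm_PW_le M hM 1 norm_one y _).trans
      ((norm_PW_le M hM _ hca x0 _).trans (norm_PW_le M hM _ hcb x1 _))
  have hMpos : (0:ℝ) ≤ 2 / M := by positivity
  have e0 : ‖Av x0 f - a • f‖ ≤ 2 / M * ‖g‖ := by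
    have : Av x0 f - a • f = PW M 1 y (Av x0 (PW M (starRingEnd ℂ a) x0
        (PW M (starRingEnd ℂ b) x1 g)) - a • (PW M (starRingEnd ℂ a) x0
        (PW M (starRingEnd ℂ b) x1 g))) := by
      rw [hf, map_sub, map_smul, comm_app (commute_PW M 1 y _ (commute_Av x0 y))]
    rw [this]
    refine (norm_PW_le M hM 1 norm_one y _).trans ((near_a M hM a ha x0 _).trans ?_)
    exact mul_le_mul_of_nonneg_left (norm_PW_le M hM _ hcb x1 _) hMpos
  have e1 : ‖Av x1 f - b • f‖ ≤ 2 / M * ‖g‖ := by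
    have : Av x1 f - b • f = PW M 1 y (PW M (starRingEnd ℂ a) x0
        (Av x1 (PW M (starRingEnd ℂ b) x1 g) - b • (PW M (starRingEnd ℂ b) x1 g))) := by
      rw [hf, map_sub, map_smul, map_sub, map_smul, comm_app (commute_PW M 1 y _ (commute_Av x1 y)),
        comm_app (commute_PW M (starRingEnd ℂ a) x0 _ (commute_Av x1 x0))]
    rw [this]
    exact (norm_PW_le M hM 1 norm_one y _).trans ((norm_PW_le M hM _ hca x0 _).trans
      (near_a M hM b hb x1 _))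
  have e2 : ‖Av y f - f‖ ≤ 2 / M * ‖g‖ := by
    have h := PW_near M hM 1 norm_one y (PW M (starRingEnd ℂ a) x0 (PW M (starRingEnd ℂ b) x1 g))
    rw [one_smul, ← hf] at h
    refine h.trans ?_
    exact mul_le_mul_of_nonneg_left ((norm_PW_le M hM _ hca x0 _).trans
      (norm_PW_le M hM _ hcb x1 _)) hMpos
  have e3 : Av y ((1 / 2 : ℂ) • (Av x0 f + Av x1 f)) - ((a + b) / 2) • f
      = (Av y ((1 / 2 : ℂ) • ((Av x0 f - a • f) + (Av x1 f - b • f)))
        + ((a + b) / 2) • (Av y f - f)) := by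
    simp only [map_smul, map_add, map_sub]
    module
  have hab : ‖(a + b) / 2‖ ≤ 1 := by
    rw [norm_div]
    have := norm_add_le a b
    rw [ha, hb] at this
    simp only [RCLike.norm_ofNat]
    linarith
  rw [e3]
  refine (norm_add_le _ _).trans ?_
  have e4 : ‖Av y ((1 / 2 : ℂ) • ((Av x0 f - a • f) + (Av x1 f - b • f)))‖ ≤ 2 / M * ‖g‖ := by
    refine (norm_Av_le _ _).trans ?_
    rw [norm_smul]
    have := norm_add_le (Av x0 f - a • f) (Av x1 f - b • f)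
    have h5 : ‖(1 / 2 : ℂ)‖ = 1 / 2 := by simp
    rw [h5]
    linarith
  have e5 : ‖((a + b) / 2) • (Av y f - f)‖ ≤ 2 / M * ‖g‖ := by
    rw [norm_smul]
    calc ‖(a + b) / 2‖ * ‖Av y f - f‖ ≤ 1 * (2 / M * ‖g‖) := by gcongr
      _ = _ := one_mul _
  have e6 : (4 : ℝ) / M * ‖g‖ = 2 / M * ‖g‖ + 2 / M * ‖g‖ := by ring
  rw [e6]
  exact add_le_add e4 e5

lemma mul_words {P Q : Type*} [Fintype P] [Fintype Q] (α β : ℂ) (c : P → ℂ) (d : Q → ℂ)
    (s : P → TT) (t : Q → TT) :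
    (α • ∑ p, c p • tr (s p)) * (β • ∑ q, d q • tr (t q))
      = (α * β) • ∑ z : P × Q, (c z.1 * d z.2) • tr (s z.1 + t z.2) := by
  rw [smul_mul_smul_comm, Finset.sum_mul_sum, Fintype.sum_prod_type]
  congr 1
  apply Finset.sum_congr rfl
  intro p _
  apply Finset.sum_congr rfl
  intro q _
  rw [smul_mul_smul_comm, tr_add]

/-- the type of words -/
abbrev Wd (M : ℕ) (ι : Type*) := Fin M × (Fin M → ι)

/-- the point of a word -/
def pt {M : ℕ} {ι : Type*} (x : ι → TT) (p : Wd M ι) : TT := ws p.1 (x ∘ p.2)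

lemma card_Wd (M : ℕ) (ι : Type*) [Fintype ι] :
    Fintype.card (Wd M ι) = M * Fintype.card ι ^ M := by
  simp [Wd]

lemma PW_words' {ι : Type*} [Fintype ι] [Nonempty ι] (M : ℕ) (c : ℂ) (x : ι → TT) :
    PW M c x = ((Fintype.card (Wd M ι) : ℂ)⁻¹) • ∑ p : Wd M ι, c ^ (p.1 : ℕ) • tr (pt x p) := by
  rw [PW_words, card_Wd]
  congr 1
  push_cast
  rw [mul_inv, inv_pow]

lemma f_words {ι κ0 κ1 : Type*} [Fintype ι] [Nonempty ι] [Fintype κ0] [Nonempty κ0] [Fintype κ1]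
    [Nonempty κ1] (M : ℕ) (y : ι → TT) (x0 : κ0 → TT) (x1 : κ1 → TT) (c d : ℂ) (g : L1) :
    PW M 1 y (PW M c x0 (PW M d x1 g))
      = ∑ p : Wd M ι × (Wd M κ0 × Wd M κ1),
        ((((Fintype.card (Wd M ι × (Wd M κ0 × Wd M κ1)) : ℝ)⁻¹ : ℝ) : ℂ)
          * (c ^ (p.2.1.1 : ℕ) * d ^ (p.2.2.1 : ℕ))) •
        tr (pt y p.1 + (pt x0 p.2.1 + pt x1 p.2.2)) g := by
  have h1 : PW M 1 y * (PW M c x0 * PW M d x1)
      = ((Fintype.card (Wd M ι × (Wd M κ0 × Wd M κ1)) : ℂ)⁻¹) •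
        ∑ p : Wd M ι × (Wd M κ0 × Wd M κ1),
        (c ^ (p.2.1.1 : ℕ) * d ^ (p.2.2.1 : ℕ)) •
        tr (pt y p.1 + (pt x0 p.2.1 + pt x1 p.2.2)) := by
    rw [PW_words', PW_words', PW_words', mul_words, mul_words]
    simp only [one_pow, one_mul]
    congr 1
    have hcard : Fintype.card (Wd M ι × (Wd M κ0 × Wd M κ1))
        = Fintype.card (Wd M ι) * (Fintype.card (Wd M κ0) * Fintype.card (Wd M κ1)) := by
      simp only [Fintype.card_prod]
    rw [hcard, Nat.cast_mul, Nat.cast_mul, mul_inv, mul_inv]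
  have h2 := congrArg (fun T : L1 →L[ℂ] L1 => T g) h1
  simp only [ContinuousLinearMap.mul_apply, ContinuousLinearMap.smul_apply,
    ContinuousLinearMap.sum_apply] at h2
  rw [h2, Finset.smul_sum]
  apply Finset.sum_congr rfl
  intro p _
  rw [smul_smul]
  congr 2
  push_cast
  rfl

lemma f_lip {ι κ0 κ1 : Type*} [Fintype ι] [Nonempty ι] [Fintype κ0] [Nonempty κ0] [Fintype κ1]
    [Nonempty κ1] (M : ℕ) (hM : 0 < M) (y : ι → TT) (x0 : κ0 → TT) (x1 : κ1 → TT) (c d : ℂ)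
    (hc : ‖c‖ = 1) (hd : ‖d‖ = 1) (g : L1) (s t : TT) :
    ‖tr s (PW M 1 y (PW M c x0 (PW M d x1 g))) - tr t (PW M 1 y (PW M c x0 (PW M d x1 g)))‖
      ≤ ‖tr s g - tr t g‖ := by
  have h : ∀ s : TT, tr s (PW M 1 y (PW M c x0 (PW M d x1 g)))
      = PW M 1 y (PW M c x0 (PW M d x1 (tr s g))) := by
    intro s
    rw [comm_app (commute_PW M 1 y _ (commute_tr_Av s y)),
      comm_app (commute_PW M c x0 _ (commute_tr_Av s x0)),
      comm_app (commute_PW M d x1 _ (commute_tr_Av s x1))]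
  rw [h, h, ← map_sub, ← map_sub, ← map_sub]
  exact (norm_PW_le M hM 1 norm_one y _).trans
      ((norm_PW_le M hM _ hc x0 _).trans (norm_PW_le M hM _ hd x1 _))

end

end Pool.Agent.V11282.RJ
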