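import Mathlib
import Pool.Agent.V11282.RJ.Ops2
import Pool.Agent.V11282.RJ.Cnt

/-!
The block lemma: a finite set of reals, well separated for words of length `M`, with small
exponential sums in a long range.
-/

set_option autoImplicit false

open Finset Filter Topology

namespace Pool.Agent.V11282.RJ

noncomputable section

/-- real partial sums -/
def rws {M : ℕ} (i : ℕ) (z : Fin M → ℝ) : ℝ := ∑ k : Fin M, if (k : ℕ) < i then z k else 0

/-- the content of a word -/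
def cnt {M : ℕ} {κ : Type*} [DecidableEq κ] (p : Wd M κ) (k : κ) : ℕ :=
  (Finset.univ.filter (fun l : Fin M => (l : ℕ) < (p.1 : ℕ) ∧ p.2 l = k)).card

lemma rws_cnt {M : ℕ} {κ : Type*} [DecidableEq κ] [Fintype κ] (u : κ → ℝ) (p : Wd M κ) :
    rws p.1 (u ∘ p.2) = ∑ k, (cnt p k : ℝ) * u k := by
  unfold rws cnt
  simp only [Finset.card_filter]
  push_cast
  simp only [Finset.sum_mul]
  rw [Finset.sum_comm]
  apply Finset.sum_congr rfl
  intro l _
  by_cases h : (l : ℕ) < (p.1 : ℕ)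
  · simp [h]
  · simp [h]

lemma sum_cnt {M : ℕ} {κ : Type*} [DecidableEq κ] [Fintype κ] (p : Wd M κ) :
    ∑ k, cnt p k = (p.1 : ℕ) := by
  unfold cnt
  simp only [Finset.card_filter]
  rw [Finset.sum_comm]
  have h1 : ∀ l : Fin M, ∑ k : κ, (if (l : ℕ) < (p.1 : ℕ) ∧ p.2 l = k then 1 else 0)
      = if (l : ℕ) < (p.1 : ℕ) then 1 else 0 := by
    intro l
    by_cases h : (l : ℕ) < (p.1 : ℕ)
    · simp [h]
    · simp [h]
  simp only [h1]
  rw [← Finset.card_filter]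
  have h2 : (Finset.univ.filter (fun l : Fin M => (l : ℕ) < (p.1 : ℕ))) = Finset.Iio p.1 := by
    ext l
    simp
  rw [h2, Fin.card_Iio]

/-- pairs of words -/
abbrev WW (M R : ℕ) := Wd M (Fin R) × Wd M (Fin R)

/-- sum over a pair of words -/
def su {M R : ℕ} (u : Fin R ⊕ Fin R → ℝ) (ω : WW M R) : ℝ :=
  rws ω.1.1 ((u ∘ Sum.inl) ∘ ω.1.2) + rws ω.2.1 ((u ∘ Sum.inr) ∘ ω.2.2)

/-- difference of the contents -/
def vec {M R : ℕ} (z : WW M R × WW M R) : Fin R ⊕ Fin R → ℤ :=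
  Sum.elim (fun k => (cnt z.1.1 k : ℤ) - cnt z.2.1 k) (fun k => (cnt z.1.2 k : ℤ) - cnt z.2.2 k)

lemma su_sub {M R : ℕ} (u : Fin R ⊕ Fin R → ℝ) (ω η : WW M R) :
    su u ω - su u η = ∑ i, (vec (ω, η) i : ℝ) * u i := by
  unfold su
  rw [rws_cnt, rws_cnt, rws_cnt, rws_cnt, Fintype.sum_sum_type]
  simp only [vec, Sum.elim_inl, Sum.elim_inr, Int.cast_sub, Int.cast_natCast, Function.comp,
    sub_mul, Finset.sum_sub_distrib]
  ring

lemma vec_zero {M R : ℕ} (u : Fin R ⊕ Fin R → ℝ) (ω η : WW M R) (h : vec (ω, η) = 0) :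
    su u ω = su u η ∧ (ω.1.1 : ℕ) = η.1.1 ∧ (ω.2.1 : ℕ) = η.2.1 := by
  refine ⟨?_, ?_, ?_⟩
  · have := su_sub u ω η
    rw [h] at this
    simp at this
    linarith
  · rw [← sum_cnt, ← sum_cnt]
    apply Finset.sum_congr rfl
    intro k _
    have := congrFun h (Sum.inl k)
    simp only [vec, Sum.elim_inl, Pi.zero_apply] at this
    omega
  · rw [← sum_cnt, ← sum_cnt]
    apply Finset.sum_congr rfl
    intro k _
    have := congrFun h (Sum.inr k)
    simp only [vec, Sum.elim_inr, Pi.zero_apply] at this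
    omega

lemma card_WW (M R : ℕ) : Fintype.card (WW M R) = (M * R ^ M) ^ 2 := by
  simp [WW, Wd, sq]

lemma exR (C c : ℝ) (hc : 0 < c) (n : ℕ) :
    ∃ R : ℕ, 0 < R ∧ (C * (R : ℝ) ^ n + 2) * 4 * Real.exp (-(c * R)) < 1 / 2 := by
  have h1 : Tendsto (fun R : ℕ => c * (R : ℝ)) atTop atTop :=
    tendsto_natCast_atTop_atTop.const_mul_atTop hc
  have h2 := (Real.tendsto_pow_mul_exp_neg_atTop_nhds_zero n).comp h1
  have h3 := (Real.tendsto_pow_mul_exp_neg_atTop_nhds_zero 0).comp h1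
  have h4 := (h2.const_mul (4 * C * (c⁻¹) ^ n)).add (h3.const_mul 8)
  rw [mul_zero, mul_zero, add_zero] at h4
  have h5 := h4.eventually (gt_mem_nhds (show (0:ℝ) < 1 / 2 by norm_num))
  obtain ⟨R, hR, hR0⟩ := (h5.and (eventually_gt_atTop 0)).exists
  refine ⟨R, hR0, ?_⟩
  refine lt_of_eq_of_lt ?_ hR
  simp only [Function.comp, mul_pow, pow_zero, one_mul, inv_pow]
  have : c ^ n ≠ 0 := pow_ne_zero _ hc.ne'
  field_simp
  ring

/-- the block lemma -/
theorem block (M : ℕ) (hM : 0 < M) (τ Λ : ℝ) (hτ : 0 < τ) (hτ1 : τ ≤ 1) (hΛ : 0 ≤ Λ)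
    (P : Finset ℝ) :
    ∃ (R : ℕ) (u : Fin R ⊕ Fin R → ℝ) (D : ℝ), 0 < R ∧ (∀ i, 0 ≤ u i ∧ u i ≤ 1) ∧ 0 < D ∧ D ≤ 1 ∧
      (∀ π ∈ P, ∀ ω η : WW M R,
        (su u ω = su u η ∧ (ω.1.1 : ℕ) = η.1.1 ∧ (ω.2.1 : ℕ) = η.2.1) ∨
          D ≤ |π + (su u ω - su u η)|) ∧
      (∀ ξ : ℝ, 20 / τ ≤ |ξ| → |ξ| ≤ Λ / D ^ 6 →
        ‖(Fintype.card (Fin R ⊕ Fin R) : ℂ)⁻¹ *
          ∑ i, Complex.exp (-(Complex.I * (ξ * (u i : ℝ))))‖ ≤ τ) := by
  classical
  have hMr : (1:ℝ) ≤ M := by exact_mod_cast hM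
  set p : ℝ := (P.card : ℝ) with hp
  have hp0 : 0 ≤ p := by positivity
  obtain ⟨R, hR, hRb⟩ := exR (4 * Λ / τ * (8 * (p + 1) * (M:ℝ) ^ 4) ^ 6) (τ ^ 2 / 256)
    (by positivity) (24 * M)
  have hRr : (1:ℝ) ≤ R := by exact_mod_cast hR
  haveI : Nonempty (Fin R ⊕ Fin R) := ⟨Sum.inl ⟨0, hR⟩⟩
  set A : ℝ := 8 * (p + 1) * ((M:ℝ) * (R:ℝ) ^ M) ^ 4 with hA
  have hA8 : 8 ≤ A := by
    have h1 : (1:ℝ) ≤ ((M:ℝ) * (R:ℝ) ^ M) ^ 4 := by
      apply one_le_pow₀
      exact one_le_mul_of_one_le_of_one_le hMr (one_le_pow₀ hRr)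
    nlinarith
  set D : ℝ := 1 / A with hD
  have hApos : 0 < A := by linarith
  have hDpos : 0 < D := by positivity
  have hD1 : D ≤ 1 := by
    rw [hD, div_le_one hApos]; linarith
  set L : ℕ := ⌈4 * Λ / (τ * D ^ 6)⌉₊ with hL
  set Q : ℕ := ⌈A⌉₊ + L + 1 with hQ
  have hQpos : 0 < Q := by omega
  have hQr : (0:ℝ) < Q := by exact_mod_cast hQpos
  have hQA : A ≤ Q := by
    have := Nat.le_ceil A
    rw [hQ]
    push_cast
    have h0 : (0:ℝ) ≤ L := by positivity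
    linarith
  have hQL : (L : ℝ) ≤ Q := by
    rw [hQ]
    push_cast
    have h0 : (0:ℝ) ≤ ⌈A⌉₊ := by positivity
    linarith
  set N : ℕ := Fintype.card (Fin R ⊕ Fin R) with hN
  have hNR : (N : ℝ) = 2 * R := by
    rw [hN]; simp; ring
  set T : ℝ := (Q : ℝ) ^ N with hT
  have hTpos : 0 < T := by positivity
  -- the first bad set
  set B2 : Finset (Fin R ⊕ Fin R → Fin Q) :=
    (P ×ˢ (Finset.univ.filter (fun z : WW M R × WW M R => vec z ≠ 0))).biUnion
      (fun a => Finset.univ.filter (fun q : Fin R ⊕ Fin R → Fin Q =>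
        |a.1 + ∑ i, (vec a.2 i : ℝ) * (((q i : ℕ) : ℝ) / Q)| < D)) with hB2
  have hB2card : (B2.card : ℝ) ≤ 3 / 8 * T := by
    have h1 : (B2.card : ℝ) ≤ ∑ a ∈ (P ×ˢ (Finset.univ.filter
        (fun z : WW M R × WW M R => vec z ≠ 0))), (3 * D * T) := by
      have h2 : (B2.card : ℝ) ≤ ((∑ a ∈ (P ×ˢ (Finset.univ.filter
        (fun z : WW M R × WW M R => vec z ≠ 0))), (Finset.univ.filter
        (fun q : Fin R ⊕ Fin R → Fin Q =>
        |a.1 + ∑ i, (vec a.2 i : ℝ) * (((q i : ℕ) : ℝ) / Q)| < D)).card : ℕ) : ℝ) := by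
        exact_mod_cast Finset.card_biUnion_le
      refine h2.trans ?_
      push_cast
      apply Finset.sum_le_sum
      intro a ha
      have ha2 : vec a.2 ≠ 0 := (Finset.mem_filter.mp (Finset.mem_product.mp ha).2).2
      obtain ⟨κ, hκ⟩ := Function.ne_iff.mp ha2
      have h3 := anti (vec a.2) κ hκ Q hQpos D a.1 hDpos
      refine h3.trans ?_
      rw [← hN, ← hT]
      have h4 : 1 / (Q : ℝ) ≤ D := by
        rw [hD]
        exact one_div_le_one_div_of_le hApos hQA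
      nlinarith
    rw [Finset.sum_const, nsmul_eq_mul, Finset.card_product] at h1
    have h5 : ((Finset.univ.filter (fun z : WW M R × WW M R => vec z ≠ 0)).card : ℝ)
        ≤ ((M:ℝ) * (R:ℝ) ^ M) ^ 4 := by
      have h6 := Finset.card_le_univ (Finset.univ.filter (fun z : WW M R × WW M R => vec z ≠ 0))
      rw [Fintype.card_prod (WW M R) (WW M R), card_WW] at h6
      have h7 : ((Finset.univ.filter (fun z : WW M R × WW M R => vec z ≠ 0)).card : ℝ)
        ≤ (((M * R ^ M) ^ 2 * (M * R ^ M) ^ 2 : ℕ) : ℝ) := by exact_mod_cast h6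
      refine h7.trans (le_of_eq ?_)
      push_cast
      ring
    refine h1.trans ?_
    push_cast
    rw [← hp]
    set X : ℝ := ((M:ℝ) * (R:ℝ) ^ M) ^ 4 with hX
    have hX0 : 0 ≤ X := by positivity
    have h8 : p * ((Finset.univ.filter (fun z : WW M R × WW M R => vec z ≠ 0)).card : ℝ)
        ≤ (p + 1) * X := by
      apply mul_le_mul (by linarith) h5 (by positivity) (by linarith)
    have h9 : (p + 1) * X = A / 8 := by rw [hA]; ring
    calc p * ((Finset.univ.filter (fun z : WW M R × WW M R => vec z ≠ 0)).card : ℝ) * (3 * D * T)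
        ≤ (A / 8) * (3 * D * T) := by
          rw [← h9]
          gcongr
      _ = 3 / 8 * T := by
          rw [hD]
          field_simp
  -- the second bad set
  set G : ℕ → Fin Q → ℂ := fun l x =>
    Complex.exp (-(Complex.I * (((l : ℝ) * (τ / 4) : ℝ) * (((x : ℕ) : ℝ) / Q : ℝ)))) with hG
  have hGn : ∀ l x, ‖G l x‖ ≤ 1 := by
    intro l x
    simp only [hG]
    have e : (-(Complex.I * (((((l : ℝ) * (τ / 4) : ℝ) : ℂ)) * (((((x : ℕ) : ℝ) / Q : ℝ)) : ℂ))))
        = ((-(((l : ℝ) * (τ / 4)) * (((x : ℕ) : ℝ) / Q)) : ℝ) : ℂ) * Complex.I := by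
      push_cast
      ring
    rw [e, Complex.norm_exp_ofReal_mul_I]
  set B3 : Finset (Fin R ⊕ Fin R → Fin Q) :=
    (Finset.range (L + 1)).biUnion (fun l => Finset.univ.filter
      (fun q : Fin R ⊕ Fin R → Fin Q =>
        τ / 4 < ‖(N : ℂ)⁻¹ * ∑ i, G l (q i) - (Q : ℂ)⁻¹ * ∑ x, G l x‖)) with hB3
  have hB3card : (B3.card : ℝ) < 1 / 2 * T := by
    have h1 : (B3.card : ℝ) ≤ ∑ l ∈ Finset.range (L + 1),
        (4 * (T * Real.exp (-((τ / 4) ^ 2 * N / 32)))) := by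
      have h2 : (B3.card : ℝ) ≤ ((∑ l ∈ Finset.range (L + 1), (Finset.univ.filter
        (fun q : Fin R ⊕ Fin R → Fin Q =>
        τ / 4 < ‖(N : ℂ)⁻¹ * ∑ i, G l (q i) - (Q : ℂ)⁻¹ * ∑ x, G l x‖)).card : ℕ) : ℝ) := by
        exact_mod_cast Finset.card_biUnion_le
      refine h2.trans ?_
      push_cast
      apply Finset.sum_le_sum
      intro l _
      exact hoeffding hQpos (G l) (hGn l) (τ / 4) (by positivity)
    rw [Finset.sum_const, nsmul_eq_mul, Finset.card_range] at h1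
    have h3 : (τ / 4) ^ 2 * (N : ℝ) / 32 = τ ^ 2 / 256 * R := by
      rw [hNR]; ring
    rw [h3] at h1
    have h4 : ((L + 1 : ℕ) : ℝ) ≤ 4 * Λ / τ * (8 * (p + 1) * (M:ℝ) ^ 4) ^ 6 * (R:ℝ) ^ (24 * M) + 2 := by
      have h5 : (L : ℝ) < 4 * Λ / (τ * D ^ 6) + 1 := Nat.ceil_lt_add_one (by positivity)
      have h6 : 4 * Λ / (τ * D ^ 6)
          = 4 * Λ / τ * (8 * (p + 1) * (M:ℝ) ^ 4) ^ 6 * (R:ℝ) ^ (24 * M) := by
        have h7 : A ^ 6 = (8 * (p + 1) * (M:ℝ) ^ 4) ^ 6 * (R:ℝ) ^ (24 * M) := by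
          rw [hA, mul_pow (M:ℝ), ← mul_assoc, mul_pow _ (((R:ℝ) ^ M) ^ 4), ← pow_mul, ← pow_mul]
          congr 2
          ring
        rw [mul_assoc, ← h7, hD]
        field_simp
      push_cast
      rw [← h6]
      linarith
    refine lt_of_le_of_lt h1 ?_
    calc ((L + 1 : ℕ) : ℝ) * (4 * (T * Real.exp (-(τ ^ 2 / 256 * R))))
        ≤ (4 * Λ / τ * (8 * (p + 1) * (M:ℝ) ^ 4) ^ 6 * (R:ℝ) ^ (24 * M) + 2) *
          (4 * (T * Real.exp (-(τ ^ 2 / 256 * R)))) := by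
          apply mul_le_mul_of_nonneg_right h4
          positivity
      _ = ((4 * Λ / τ * (8 * (p + 1) * (M:ℝ) ^ 4) ^ 6 * (R:ℝ) ^ (24 * M) + 2) * 4 *
          Real.exp (-(τ ^ 2 / 256 * R))) * T := by ring
      _ < 1 / 2 * T := mul_lt_mul_of_pos_right hRb hTpos
  -- a good point
  obtain ⟨q, hq⟩ : ∃ q, q ∉ B2 ∪ B3 := by
    by_contra hcon
    push Not at hcon
    have h1 : B2 ∪ B3 = Finset.univ := Finset.eq_univ_iff_forall.mpr hcon
    have h2 := Finset.card_union_le B2 B3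
    rw [h1, Finset.card_univ, Fintype.card_fun, Fintype.card_fin, ← hN] at h2
    have h3 : T ≤ (B2.card : ℝ) + B3.card := by
      rw [hT]
      exact_mod_cast h2
    linarith
  rw [Finset.mem_union, not_or] at hq
  obtain ⟨hq2, hq3⟩ := hq
  refine ⟨R, fun i => ((q i : ℕ) : ℝ) / Q, D, hR, ?_, hDpos, hD1, ?_, ?_⟩
  · intro i
    refine ⟨by positivity, ?_⟩
    rw [div_le_one hQr]
    exact_mod_cast (q i).2.le
  · intro π hπ ω η
    by_cases hv : vec (ω, η) = 0
    · exact Or.inl (vec_zero _ ω η hv)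
    · right
      rw [su_sub]
      by_contra hcon
      push Not at hcon
      apply hq2
      rw [hB2, Finset.mem_biUnion]
      refine ⟨(π, (ω, η)), ?_, ?_⟩
      · rw [Finset.mem_product]
        exact ⟨hπ, by simpa using hv⟩
      · simpa using hcon
  · -- exponential sums
    have key : ∀ ξ : ℝ, 20 / τ ≤ ξ → ξ ≤ Λ / D ^ 6 →
        ‖(N : ℂ)⁻¹ * ∑ i, Complex.exp (-(Complex.I * (ξ * ((((q i : ℕ) : ℝ) / Q : ℝ)))))‖ ≤ τ := by
      intro ξ h1 h2
      have hξ : 0 < ξ := lt_of_lt_of_le (by positivity) h1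
      set l : ℕ := ⌊4 * ξ / τ⌋₊ with hl
      have hl1 : (l : ℝ) ≤ 4 * ξ / τ := Nat.floor_le (by positivity)
      have hl2 : 4 * ξ / τ < l + 1 := Nat.lt_floor_add_one _
      have hlL : l ≤ L := by
        have h3 : 4 * ξ / τ ≤ 4 * Λ / (τ * D ^ 6) := by
          calc 4 * ξ / τ ≤ 4 * (Λ / D ^ 6) / τ := by gcongr
            _ = 4 * Λ / (τ * D ^ 6) := by field_simp
        rw [hl, hL]
        exact (Nat.floor_mono h3).trans (Nat.floor_le_ceil _)
      set ξl : ℝ := (l : ℝ) * (τ / 4) with hξl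
      have hx1 : ξl ≤ ξ := by
        rw [hξl]
        calc (l : ℝ) * (τ / 4) ≤ (4 * ξ / τ) * (τ / 4) := by gcongr
          _ = ξ := by field_simp
      have hx2 : ξ ≤ ξl + τ / 4 := by
        rw [hξl]
        calc ξ = (4 * ξ / τ) * (τ / 4) := by field_simp
          _ ≤ (l + 1) * (τ / 4) := by gcongr
          _ = (l : ℝ) * (τ / 4) + τ / 4 := by ring
      have hx3 : 19 / τ ≤ ξl := by
        have : 1 ≤ 1 / τ := by rw [le_div_iff₀ hτ]; linarith
        have h4 : 20 / τ = 19 / τ + 1 / τ := by ring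
        linarith
      have hx0 : 0 < ξl := lt_of_lt_of_le (by positivity) hx3
      have hxQ : ξl ≤ Q := by
        rw [hξl]
        have h5 : (l : ℝ) ≤ L := by exact_mod_cast hlL
        nlinarith
      have hgood : ‖(N : ℂ)⁻¹ * ∑ i, G l (q i) - (Q : ℂ)⁻¹ * ∑ x, G l x‖ ≤ τ / 4 := by
        by_contra hcon
        push Not at hcon
        apply hq3
        rw [hB3, Finset.mem_biUnion]
        exact ⟨l, Finset.mem_range.mpr (by omega), by simpa using hcon⟩
      have hmean := mean_exp Q hQpos ξl hx0 hxQ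
      have hpi := Real.pi_lt_d2
      have hmean2 : ‖(Q : ℂ)⁻¹ * ∑ x, G l x‖ ≤ τ / 4 := by
        refine hmean.trans ?_
        rw [div_le_iff₀ hx0]
        have h6 : 19 ≤ ξl * τ := by
          rwa [div_le_iff₀ hτ] at hx3
        nlinarith
      have hdiff : ‖(N : ℂ)⁻¹ * ∑ i, Complex.exp (-(Complex.I * (ξ * ((((q i : ℕ) : ℝ) / Q : ℝ)))))
          - (N : ℂ)⁻¹ * ∑ i, G l (q i)‖ ≤ τ / 4 := by
        have hNpos : (0:ℝ) < N := by rw [hNR]; linarith
        rw [← mul_sub, ← Finset.sum_sub_distrib, norm_mul, norm_inv, Complex.norm_natCast]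
        have h7 : ∀ i, ‖Complex.exp (-(Complex.I * (ξ * ((((q i : ℕ) : ℝ) / Q : ℝ)))))
            - G l (q i)‖ ≤ τ / 4 := by
          intro i
          set y : ℝ := ((q i : ℕ) : ℝ) / Q with hy
          have hy0 : 0 ≤ y := by positivity
          have hy1 : y ≤ 1 := by
            rw [hy, div_le_one hQr]
            exact_mod_cast (q i).2.le
          have e1 : G l (q i) = Complex.exp ((-(ξl * y) : ℝ) * Complex.I) := by
            simp only [hG, hξl, hy]
            congr 1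
            push_cast
            ring
          have e2 : Complex.exp (-(Complex.I * (ξ * (y : ℝ))))
              - G l (q i) = Complex.exp ((-(ξl * y) : ℝ) * Complex.I) *
              (Complex.exp (Complex.I * ((-((ξ - ξl) * y) : ℝ) : ℂ)) - 1) := by
            rw [e1, mul_sub, mul_one, ← Complex.exp_add]
            congr 2
            push_cast
            ring
          rw [e2, norm_mul, Complex.norm_exp_ofReal_mul_I, one_mul]
          refine Real.norm_exp_I_mul_ofReal_sub_one_le.trans ?_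
          rw [Real.norm_eq_abs, abs_neg, abs_mul, abs_of_nonneg hy0,
            abs_of_nonneg (by linarith : 0 ≤ ξ - ξl)]
          nlinarith
        calc (N:ℝ)⁻¹ * ‖∑ i, (Complex.exp (-(Complex.I * (ξ * ((((q i : ℕ) : ℝ) / Q : ℝ)))))
            - G l (q i))‖ ≤ (N:ℝ)⁻¹ * (N * (τ / 4)) := by
              apply mul_le_mul_of_nonneg_left _ (by positivity)
              refine (norm_sum_le _ _).trans ((Finset.sum_le_sum fun i _ => h7 i).trans ?_)
              rw [Finset.sum_const, Finset.card_univ, nsmul_eq_mul]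
          _ = τ / 4 := by field_simp
      have h8 : (N : ℂ)⁻¹ * ∑ i, Complex.exp (-(Complex.I * (ξ * ((((q i : ℕ) : ℝ) / Q : ℝ)))))
          = ((N : ℂ)⁻¹ * ∑ i, Complex.exp (-(Complex.I * (ξ * ((((q i : ℕ) : ℝ) / Q : ℝ)))))
          - (N : ℂ)⁻¹ * ∑ i, G l (q i)) + ((N : ℂ)⁻¹ * ∑ i, G l (q i) - (Q : ℂ)⁻¹ * ∑ x, G l x)
          + (Q : ℂ)⁻¹ * ∑ x, G l x := by ring
      rw [h8]
      refine (norm_add₃_le).trans ?_
      linarith
    intro ξ h1 h2
    rcases le_total 0 ξ with h0 | h0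
    · rw [abs_of_nonneg h0] at h1 h2
      exact key ξ h1 h2
    · rw [abs_of_nonpos h0] at h1 h2
      have h3 := key (-ξ) h1 h2
      rw [← Complex.norm_conj] at h3
      refine le_of_eq_of_le ?_ h3
      congr 1
      rw [map_mul, map_sum, map_inv₀, Complex.conj_natCast]
      congr 1
      apply Finset.sum_congr rfl
      intro i _
      rw [← Complex.exp_conj]
      congr 1
      simp

end

end Pool.Agent.V11282.RJ
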