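import Mathlib
import Pool.Agent.V11282.RJ.Block

/-!
One step of the construction.
-/

set_option autoImplicit false

open Finset Filter Topology AddCircle

namespace Pool.Agent.V11282.RJ

noncomputable section

/-- average of a real function over a finite family of points -/
def avr {ι : Type*} [Fintype ι] (y : ι → TT) (g : TT → ℝ) : ℝ :=
  (Fintype.card ι : ℝ)⁻¹ * ∑ i, g (y i)

/-- Fourier coefficient of the uniform measure on a finite family -/
def avc {ι : Type*} [Fintype ι] (y : ι → TT) (k : ℤ) : ℂ :=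
  (Fintype.card ι : ℂ)⁻¹ * ∑ i, (fourier (-k) (y i) : ℂ)

lemma norm_coe_le (x : ℝ) : ‖(x : TT)‖ ≤ |x| := QuotientAddGroup.norm_mk_le_norm

lemma ws_coe {M : ℕ} (i : ℕ) (z : Fin M → ℝ) (δ : ℝ) :
    ws i (fun k => ((δ * z k : ℝ) : TT)) = ((δ * rws i z : ℝ) : TT) := by
  unfold ws rws
  rw [Finset.mul_sum]
  have h : ∀ k : Fin M, (if (k : ℕ) < i then ((δ * z k : ℝ) : TT) else 0)
      = ((δ * (if (k : ℕ) < i then z k else 0) : ℝ) : TT) := by
    intro k
    split_ifs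
    · rfl
    · simp
  simp only [h]
  exact (map_sum (QuotientAddGroup.mk' (AddSubgroup.zmultiples (2 * Real.pi))) _ _).symm

lemma pt_coe {M : ℕ} {ι : Type*} (u : ι → ℝ) (δ : ℝ) (p : Wd M ι) :
    pt (fun k => ((δ * u k : ℝ) : TT)) p = ((δ * rws p.1 (u ∘ p.2) : ℝ) : TT) := by
  unfold pt
  exact ws_coe p.1 (u ∘ p.2) δ

lemma rws_bound {M : ℕ} (i : ℕ) (z : Fin M → ℝ) (hz : ∀ k, 0 ≤ z k ∧ z k ≤ 1) :
    0 ≤ rws i z ∧ rws i z ≤ M := by
  unfold rws
  constructor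
  · apply Finset.sum_nonneg
    intro k _
    split_ifs
    · exact (hz k).1
    · exact le_rfl
  · calc ∑ k : Fin M, (if (k : ℕ) < i then z k else 0) ≤ ∑ k : Fin M, (1:ℝ) := by
          apply Finset.sum_le_sum
          intro k _
          split_ifs
          · exact (hz k).2
          · norm_num
      _ = M := by simp

lemma su_bound {M R : ℕ} (u : Fin R ⊕ Fin R → ℝ) (hu : ∀ i, 0 ≤ u i ∧ u i ≤ 1) (ω : WW M R) :
    0 ≤ su u ω ∧ su u ω ≤ 2 * M := by
  unfold su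
  have h1 := rws_bound ω.1.1 ((u ∘ Sum.inl) ∘ ω.1.2) (fun k => hu _)
  have h2 := rws_bound ω.2.1 ((u ∘ Sum.inr) ∘ ω.2.2) (fun k => hu _)
  constructor <;> linarith [h1.1, h1.2, h2.1, h2.2]

/-- a finite family of distances has a positive gap -/
lemma gap {X : Type*} [Finite X] (d : X → ℝ) :
    ∃ σ : ℝ, 0 < σ ∧ σ ≤ 1 ∧ ∀ x, d x ≤ 0 ∨ σ ≤ d x := by
  have h : ∀ᶠ σ in 𝓝[>] (0:ℝ), ∀ x, d x ≤ 0 ∨ σ ≤ d x := by
    rw [eventually_all]
    intro x
    rcases le_or_gt (d x) 0 with h | h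
    · exact Eventually.of_forall fun _ => Or.inl h
    · have : ∀ᶠ σ in 𝓝[>] (0:ℝ), σ ≤ d x :=
        (eventually_le_nhds h).filter_mono nhdsWithin_le_nhds
      exact this.mono fun σ hσ => Or.inr hσ
  have h2 : ∀ᶠ σ in 𝓝[>] (0:ℝ), σ ≤ 1 :=
    (eventually_le_nhds one_pos).filter_mono nhdsWithin_le_nhds
  obtain ⟨σ, ⟨h3, h4⟩, h5⟩ := ((h.and h2).and self_mem_nhdsWithin).exists
  exact ⟨σ, h5, h4, h3⟩

/-- a representative of a point of the circle -/
def rep (t : TT) : ℝ := (exists_rep t).choose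

lemma rep_coe (t : TT) : ((rep t : ℝ) : TT) = t := (exists_rep t).choose_spec.1

lemma rep_le (t : TT) : |rep t| ≤ Real.pi := (exists_rep t).choose_spec.2.1

/-- norm of the class of a real number of modulus at most `π + 1` -/
lemma norm_coe_small (x c : ℝ) (hx : |x| ≤ Real.pi + 1)
    (h : ∀ m : ℤ, (m = -1 ∨ m = 0 ∨ m = 1) → c ≤ |x - m * (2 * Real.pi)|) : c ≤ ‖(x : TT)‖ := by
  rw [AddCircle.norm_eq]
  apply h
  have hp := Real.pi_gt_three
  have h1 := abs_sub_round ((2 * Real.pi)⁻¹ * x)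
  have h2 : |(2 * Real.pi)⁻¹ * x| < 1 := by
    rw [abs_mul, abs_of_pos (by positivity)]
    rw [inv_mul_lt_iff₀ (by positivity)]
    linarith
  have h3 : |(round ((2 * Real.pi)⁻¹ * x) : ℝ)| < 2 := by
    have : |(round ((2 * Real.pi)⁻¹ * x) : ℝ)| ≤ |(2 * Real.pi)⁻¹ * x|
        + |(2 * Real.pi)⁻¹ * x - round ((2 * Real.pi)⁻¹ * x)| := by
      have e : (round ((2 * Real.pi)⁻¹ * x) : ℝ) = (2 * Real.pi)⁻¹ * x
        - ((2 * Real.pi)⁻¹ * x - round ((2 * Real.pi)⁻¹ * x)) := by ring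
      conv_lhs => rw [e]
      exact abs_sub _ _
    linarith
  have h4 : |round ((2 * Real.pi)⁻¹ * x)| < 2 := by
    have : ((|round ((2 * Real.pi)⁻¹ * x)| : ℤ) : ℝ) < ((2 : ℤ) : ℝ) := by
      push_cast
      exact h3
    exact_mod_cast this
  rw [abs_lt] at h4
  omega

/-- separation of the points of the words -/
lemma separation {n M R : ℕ} (y : Fin n → TT) (δ : ℝ) (hδ : 0 < δ) (hδM : 2 * M * δ ≤ 1)
    (u : Fin R ⊕ Fin R → ℝ) (hu : ∀ i, 0 ≤ u i ∧ u i ≤ 1) (D σ : ℝ) (hD : 0 < D) (hD1 : D ≤ 1)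
    (hδ1 : δ ≤ 1)
    (hσ : 0 < σ) (hσ1 : σ ≤ 1)
    (hσy : ∀ p p' : Wd M (Fin n), pt y p = pt y p' ∨ σ ≤ ‖pt y p - pt y p'‖)
    (hblock : ∀ (p p' : Wd M (Fin n)) (m : ℤ), (m = -1 ∨ m = 0 ∨ m = 1) → ∀ ω η : WW M R,
        (su u ω = su u η ∧ (ω.1.1 : ℕ) = η.1.1 ∧ (ω.2.1 : ℕ) = η.2.1) ∨
          D ≤ |(rep (pt y p - pt y p') - m * (2 * Real.pi)) / δ + (su u ω - su u η)|)
    (c d : ℂ) (w z : Wd M (Fin n) × WW M R) :
    ((pt y w.1 + (pt (fun k => ((δ * u (Sum.inl k) : ℝ) : TT)) w.2.1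
        + pt (fun k => ((δ * u (Sum.inr k) : ℝ) : TT)) w.2.2)
      = pt y z.1 + (pt (fun k => ((δ * u (Sum.inl k) : ℝ) : TT)) z.2.1
        + pt (fun k => ((δ * u (Sum.inr k) : ℝ) : TT)) z.2.2)) ∧
      c ^ (w.2.1.1 : ℕ) * d ^ (w.2.2.1 : ℕ) = c ^ (z.2.1.1 : ℕ) * d ^ (z.2.2.1 : ℕ)) ∨
    D * δ * σ ≤ ‖pt y w.1 + (pt (fun k => ((δ * u (Sum.inl k) : ℝ) : TT)) w.2.1
        + pt (fun k => ((δ * u (Sum.inr k) : ℝ) : TT)) w.2.2)
      - (pt y z.1 + (pt (fun k => ((δ * u (Sum.inl k) : ℝ) : TT)) z.2.1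
        + pt (fun k => ((δ * u (Sum.inr k) : ℝ) : TT)) z.2.2))‖ := by
  have hs : ∀ ω : WW M R, pt (fun k => ((δ * u (Sum.inl k) : ℝ) : TT)) ω.1
        + pt (fun k => ((δ * u (Sum.inr k) : ℝ) : TT)) ω.2 = ((δ * su u ω : ℝ) : TT) := by
    intro ω
    rw [pt_coe (fun k => u (Sum.inl k)), pt_coe (fun k => u (Sum.inr k)), ← AddCircle.coe_add,
      ← mul_add]
    rfl
  rw [hs, hs]
  by_cases hsame : su u w.2 = su u z.2 ∧ (w.2.1.1 : ℕ) = z.2.1.1 ∧ (w.2.2.1 : ℕ) = z.2.2.1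
  · obtain ⟨h1, h2, h3⟩ := hsame
    rcases hσy w.1 z.1 with h4 | h4
    · left
      rw [h1, h2, h3, h4]
      exact ⟨rfl, rfl⟩
    · right
      rw [h1, add_sub_add_right_eq_sub]
      refine le_trans ?_ h4
      have : D * δ ≤ 1 := mul_le_one₀ hD1 hδ.le hδ1
      nlinarith
  · right
    have hb : ∀ m : ℤ, (m = -1 ∨ m = 0 ∨ m = 1) →
        D ≤ |(rep (pt y w.1 - pt y z.1) - m * (2 * Real.pi)) / δ + (su u w.2 - su u z.2)| := by
      intro m hm
      rcases hblock w.1 z.1 m hm w.2 z.2 with h | h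
      · exact absurd h hsame
      · exact h
    have e1 : pt y w.1 + ((δ * su u w.2 : ℝ) : TT) - (pt y z.1 + ((δ * su u z.2 : ℝ) : TT))
        = ((rep (pt y w.1 - pt y z.1) + δ * (su u w.2 - su u z.2) : ℝ) : TT) := by
      rw [AddCircle.coe_add, rep_coe, mul_sub, AddCircle.coe_sub]
      abel
    rw [e1]
    have hw := su_bound u hu w.2
    have hz := su_bound u hu z.2
    apply norm_coe_small
    · refine (abs_add_le _ _).trans ?_
      have h1 := rep_le (pt y w.1 - pt y z.1)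
      have h2 : |δ * (su u w.2 - su u z.2)| ≤ 1 := by
        rw [abs_mul, abs_of_pos hδ]
        have h3 : |su u w.2 - su u z.2| ≤ 2 * M := by
          rw [abs_le]
          constructor <;> linarith [hw.1, hw.2, hz.1, hz.2]
        calc δ * |su u w.2 - su u z.2| ≤ δ * (2 * M) := by gcongr
          _ = 2 * M * δ := by ring
          _ ≤ 1 := hδM
      linarith
    · intro m hm
      have h1 := hb m hm
      have e2 : rep (pt y w.1 - pt y z.1) + δ * (su u w.2 - su u z.2) - m * (2 * Real.pi)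
          = δ * ((rep (pt y w.1 - pt y z.1) - m * (2 * Real.pi)) / δ
            + (su u w.2 - su u z.2)) := by
        field_simp
        ring
      rw [e2, abs_mul, abs_of_pos hδ]
      calc D * δ * σ ≤ D * δ * 1 := by gcongr
        _ = δ * D := by ring
        _ ≤ _ := by gcongr

/-- the product family -/
def prodY {ι κ : Type*} (y : ι → TT) (x : κ → TT) : ι × κ → TT := fun p => y p.1 + x p.2

lemma Av_prod {ι : Type*} [Fintype ι] {R : ℕ} (y : ι → TT) (x : Fin R ⊕ Fin R → TT)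
    (f : L1) :
    Av (prodY y x) f = Av y ((1 / 2 : ℂ) • (Av (fun k => x (Sum.inl k)) f
      + Av (fun k => x (Sum.inr k)) f)) := by
  have h1 : (Fintype.card (ι × (Fin R ⊕ Fin R)) : ℂ)⁻¹
      = (Fintype.card ι : ℂ)⁻¹ * ((1 / 2) * (Fintype.card (Fin R) : ℂ)⁻¹) := by
    simp only [Fintype.card_prod, Fintype.card_sum, Fintype.card_fin]
    push_cast
    rw [mul_inv]
    congr 1
    rw [← two_mul, mul_inv]
    norm_num
  rw [Av_apply, h1, Av_apply y, mul_smul, Fintype.sum_prod_type]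
  congr 1
  rw [Finset.smul_sum]
  apply Finset.sum_congr rfl
  intro i _
  rw [map_smul, map_add, mul_smul, Av_apply, Av_apply, map_smul, map_smul, ← smul_add]
  congr 2
  rw [Fintype.sum_sum_type, map_sum, map_sum]
  simp only [prodY, tr_add]
  rfl

lemma avc_prod {ι κ : Type*} [Fintype ι] [Fintype κ] (y : ι → TT) (x : κ → TT) (k : ℤ) :
    avc (prodY y x) k = avc y k * avc x k := by
  unfold avc prodY
  rw [Fintype.card_prod, Fintype.sum_prod_type, Nat.cast_mul, mul_inv, mul_mul_mul_comm]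
  congr 1
  rw [Finset.sum_mul_sum]
  simp only [fou_add]

lemma norm_avc_le {ι : Type*} [Fintype ι] (y : ι → TT) (k : ℤ) : ‖avc y k‖ ≤ 1 := by
  unfold avc
  rw [norm_mul, norm_inv, Complex.norm_natCast]
  have h : ‖∑ i, (fourier (-k) (y i) : ℂ)‖ ≤ Fintype.card ι := by
    refine (norm_sum_le _ _).trans ?_
    simp
  rcases Nat.eq_zero_or_pos (Fintype.card ι) with h0 | h0
  · rw [h0]; simp
  · have h0' : (0:ℝ) < Fintype.card ι := by exact_mod_cast h0
    calc (Fintype.card ι : ℝ)⁻¹ * ‖∑ i, (fourier (-k) (y i) : ℂ)‖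
        ≤ (Fintype.card ι : ℝ)⁻¹ * Fintype.card ι := by gcongr
      _ = 1 := by field_simp

lemma avr_prod {ι κ : Type*} [Fintype ι] [Fintype κ] [Nonempty ι] [Nonempty κ]
    (y : ι → TT) (x : κ → TT) (δ : ℝ)
    (hx : ∀ k, ‖x k‖ ≤ δ) (g : TT → ℝ) (L : ℝ) (hL : 0 ≤ L)
    (hg : ∀ s t, |g s - g t| ≤ L * ‖s - t‖) : |avr (prodY y x) g - avr y g| ≤ δ * L := by
  have hc : (0:ℝ) < Fintype.card (ι × κ) := by exact_mod_cast Fintype.card_pos
  have hκ : (Fintype.card κ : ℝ) ≠ 0 := by exact_mod_cast Fintype.card_ne_zero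
  have hι : (Fintype.card ι : ℝ) ≠ 0 := by exact_mod_cast Fintype.card_ne_zero
  have h1 : avr y g = (Fintype.card (ι × κ) : ℝ)⁻¹ * ∑ p : ι × κ, g (y p.1) := by
    unfold avr
    rw [Fintype.sum_prod_type]
    simp only [Finset.sum_const, Finset.card_univ, nsmul_eq_mul, Fintype.card_prod, Nat.cast_mul]
    rw [← Finset.mul_sum]
    field_simp
  rw [h1]
  unfold avr
  rw [← mul_sub, ← Finset.sum_sub_distrib, abs_mul, abs_of_pos (by positivity)]
  have h2 : |∑ p : ι × κ, (g (prodY y x p) - g (y p.1))| ≤ Fintype.card (ι × κ) * (δ * L) := by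
    refine (Finset.abs_sum_le_sum_abs _ _).trans ?_
    calc ∑ p : ι × κ, |g (prodY y x p) - g (y p.1)| ≤ ∑ p : ι × κ, δ * L := by
          apply Finset.sum_le_sum
          intro p _
          refine (hg _ _).trans ?_
          have : prodY y x p - y p.1 = x p.2 := by
            unfold prodY
            abel
          rw [this, mul_comm]
          exact mul_le_mul_of_nonneg_right (hx _) hL
      _ = _ := by simp
  calc (Fintype.card (ι × κ) : ℝ)⁻¹ * |∑ p : ι × κ, (g (prodY y x p) - g (y p.1))|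
      ≤ (Fintype.card (ι × κ) : ℝ)⁻¹ * (Fintype.card (ι × κ) * (δ * L)) := by gcongr
    _ = δ * L := by field_simp

end

end Pool.Agent.V11282.RJ
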