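import Mathlib
import Pool.Agent.V11282.RJ.Step

/-!
One step of the construction: the theorem.
-/

set_option autoImplicit false

open Finset Filter Topology AddCircle

namespace Pool.Agent.V11282.RJ

noncomputable section

lemma avr_equiv {ι κ : Type*} [Fintype ι] [Fintype κ] (e : ι ≃ κ) (y : κ → TT) (g : TT → ℝ) :
    avr (y ∘ e) g = avr y g := by
  unfold avr
  rw [Fintype.card_congr e]
  congr 1
  exact Equiv.sum_comp e (fun i => g (y i))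

lemma avc_equiv {ι κ : Type*} [Fintype ι] [Fintype κ] (e : ι ≃ κ) (y : κ → TT) (k : ℤ) :
    avc (y ∘ e) k = avc y k := by
  unfold avc
  rw [Fintype.card_congr e]
  congr 1
  exact Equiv.sum_comp e (fun i => (fourier (-k) (y i) : ℂ))

lemma Av_equiv {ι κ : Type*} [Fintype ι] [Fintype κ] (e : ι ≃ κ) (y : κ → TT) :
    Av (y ∘ e) = Av y := by
  unfold Av
  rw [Fintype.card_congr e]
  congr 1
  exact Equiv.sum_comp e (fun i => tr (y i))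

/-- the eigenvector for one step -/
lemma step_eig {n M R : ℕ} (hn : 0 < n) (hR : 0 < R) (hM : 0 < M) (y : Fin n → TT)
    (x : Fin R ⊕ Fin R → TT) (s : ℝ) (hs : 0 < s) (hs1 : s ≤ 1)
    (hsep : ∀ (c d : ℂ) (w z : Wd M (Fin n) × WW M R),
      ((pt y w.1 + (pt (fun k => x (Sum.inl k)) w.2.1 + pt (fun k => x (Sum.inr k)) w.2.2)
      = pt y z.1 + (pt (fun k => x (Sum.inl k)) z.2.1 + pt (fun k => x (Sum.inr k)) z.2.2)) ∧
      c ^ (w.2.1.1 : ℕ) * d ^ (w.2.2.1 : ℕ) = c ^ (z.2.1.1 : ℕ) * d ^ (z.2.2.1 : ℕ)) ∨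
      s ≤ ‖pt y w.1 + (pt (fun k => x (Sum.inl k)) w.2.1 + pt (fun k => x (Sum.inr k)) w.2.2)
      - (pt y z.1 + (pt (fun k => x (Sum.inl k)) z.2.1 + pt (fun k => x (Sum.inr k)) z.2.2))‖)
    (a b : ℂ) (ha : ‖a‖ = 1) (hb : ‖b‖ = 1) (δ' : ℝ) (hδ' : 0 < δ')
    (hδs : 52 * M * δ' ≤ (s ^ 2 / 2000) ^ 3) :
    ∃ f ∈ H10, f ≠ 0 ∧
        ‖Av (prodY y x) f - ((a + b) / 2) • f‖ ≤ 8 / M * ‖f‖ ∧
        ∀ u t : TT, ‖tr u f - tr t f‖ ≤ 1 / (M * δ') * ‖u - t‖ * ‖f‖ := by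
  haveI : Nonempty (Fin n) := ⟨⟨0, hn⟩⟩
  haveI : Nonempty (Fin R) := ⟨⟨0, hR⟩⟩
  haveI : Nonempty (Fin M) := ⟨⟨0, hM⟩⟩
  have hMr : (1:ℝ) ≤ M := by exact_mod_cast hM
  set ρ : ℝ := s ^ 2 / 2000 with hρ
  have hρ0 : 0 < ρ := by positivity
  have hρ2 : ρ ≤ 1 / 2 := by
    rw [hρ]
    nlinarith
  have hr : 1 - ρ < 1 := by linarith
  have hr0 : 0 ≤ 1 - ρ := by linarith
  have hr2 : 1 / 2 ≤ 1 - ρ := by linarith
  set Ψ : L1 := PsiL (1 - ρ) hr hr0 with hΨ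
  set x0 : Fin R → TT := fun k => x (Sum.inl k) with hx0
  set x1 : Fin R → TT := fun k => x (Sum.inr k) with hx1
  set c := starRingEnd ℂ a with hc
  set d := starRingEnd ℂ b with hd
  have hcn : ‖c‖ = 1 := by simpa [hc] using ha
  have hdn : ‖d‖ = 1 := by simpa [hd] using hb
  set f : L1 := PW M 1 y (PW M c x0 (PW M d x1 Ψ)) with hf
  have hw := f_words M y x0 x1 c d Ψ
  rw [← hf] at hw
  have hcard : (0:ℝ) < (Fintype.card (Wd M (Fin n) × (Wd M (Fin R) × Wd M (Fin R))) : ℝ) := by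
    exact_mod_cast Fintype.card_pos
  have hlb := lb (W := Wd M (Fin n) × (Wd M (Fin R) × Wd M (Fin R)))
    (fun _ => (Fintype.card (Wd M (Fin n) × (Wd M (Fin R) × Wd M (Fin R))) : ℝ)⁻¹)
    (fun _ => by positivity)
    (by rw [Finset.sum_const, Finset.card_univ, nsmul_eq_mul, mul_inv_cancel₀ hcard.ne'])
    (fun p => c ^ (p.2.1.1 : ℕ) * d ^ (p.2.2.1 : ℕ))
    (fun p => by rw [norm_mul, norm_pow, norm_pow, hcn, hdn, one_pow, one_pow, one_mul])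
    (fun p => pt y p.1 + (pt x0 p.2.1 + pt x1 p.2.2)) s hs
    (fun w z => hsep c d w z) (1 - ρ) hr hr0 hr2
  rw [← hw, ← hΨ] at hlb
  have e1 : 40 * (1 - (1 - ρ)) / s ^ 2 = 1 / 50 := by
    rw [hρ]
    field_simp
    ring
  rw [e1] at hlb
  have hΨn : 1 / (4 * Real.pi) ≤ ‖Ψ‖ := PsiL_norm_ge (1 - ρ) hr hr0
  have hpi := Real.pi_lt_d2
  have hpi0 := Real.pi_pos
  have hΨ2 : 1 / 13 ≤ ‖Ψ‖ := by
    refine le_trans ?_ hΨn
    apply one_div_le_one_div_of_le (by positivity)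
    linarith
  have hfΨ : ‖Ψ‖ / 2 ≤ ‖f‖ := by linarith
  have hf26 : 1 / 26 ≤ ‖f‖ := by linarith
  refine ⟨f, ?_, ?_, ?_, ?_⟩
  · rw [hw]
    apply Submodule.sum_mem
    intro p _
    apply Submodule.smul_mem
    exact tr_mem _ (PsiL_mem _ hr hr0)
  · intro h0
    rw [h0, norm_zero] at hf26
    linarith
  · rw [Av_prod]
    refine (eig M hM y x0 x1 a b ha hb Ψ f hf).trans ?_
    have : (8:ℝ) / M * ‖f‖ = 4 / M * (2 * ‖f‖) := by ring
    rw [this]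
    apply mul_le_mul_of_nonneg_left _ (by positivity)
    linarith
  · intro u t
    refine (f_lip M hM y x0 x1 c d hcn hdn Ψ u t).trans ?_
    refine (PsiL_lip (1 - ρ) hr hr0 u t).trans ?_
    have e2 : 1 / (M * δ') * ‖u - t‖ * ‖f‖ = (1 / (M * δ') * ‖f‖) * ‖u - t‖ := by ring
    rw [e2]
    apply mul_le_mul_of_nonneg_right _ (norm_nonneg _)
    have e3 : 1 - (1 - ρ) = ρ := by ring
    rw [e3]
    have hMδ : 0 < M * δ' := by positivity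
    calc 2 / ρ ^ 3 ≤ 2 / (52 * M * δ') := by
          apply div_le_div_of_nonneg_left (by norm_num) (by positivity) hδs
      _ = 1 / (M * δ') * (1 / 26) := by
          field_simp
          norm_num
      _ ≤ 1 / (M * δ') * ‖f‖ := by gcongr

theorem step (n : ℕ) (hn : 0 < n) (y : Fin n → TT) (δ : ℝ) (hδ : 0 < δ) (hδ1 : δ ≤ 1) (M : ℕ)
    (hM : 0 < M) (hδM : 2 * M * δ ≤ 1) (τ τ' : ℝ) (hτ : 0 < τ) (hτ1 : τ ≤ 1) (hτ' : 0 < τ')
    (M' : ℕ) :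
    ∃ (n' : ℕ) (y' : Fin n' → TT) (δ' : ℝ), 0 < n' ∧ 0 < δ' ∧ δ' ≤ δ / 2 ∧ 2 * M' * δ' ≤ 1 ∧
      (∀ (g : TT → ℝ) (L : ℝ), 0 ≤ L → (∀ s t, |g s - g t| ≤ L * ‖s - t‖) →
        |avr y' g - avr y g| ≤ δ * L) ∧
      (∀ k : ℤ, ‖avc y' k‖ ≤ ‖avc y k‖) ∧
      (∀ k : ℤ, 20 / (τ * δ) ≤ |(k : ℝ)| → |(k : ℝ)| ≤ 20 / (τ' * δ') → ‖avc y' k‖ ≤ τ) ∧
      (∀ a b : ℂ, ‖a‖ = 1 → ‖b‖ = 1 → ∃ f ∈ H10, f ≠ 0 ∧
        ‖Av y' f - ((a + b) / 2) • f‖ ≤ 8 / M * ‖f‖ ∧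
        ∀ s t : TT, ‖tr s f - tr t f‖ ≤ 1 / (M * δ') * ‖s - t‖ * ‖f‖) := by
  classical
  haveI : Nonempty (Fin n) := ⟨⟨0, hn⟩⟩
  have hMr : (1:ℝ) ≤ M := by exact_mod_cast hM
  obtain ⟨σ, hσ, hσ1, hσy0⟩ := gap (X := Wd M (Fin n) × Wd M (Fin n))
    (fun x => ‖pt y x.1 - pt y x.2‖)
  have hσy : ∀ p p' : Wd M (Fin n), pt y p = pt y p' ∨ σ ≤ ‖pt y p - pt y p'‖ := by
    intro p p'
    rcases hσy0 (p, p') with h | h
    · left
      exact sub_eq_zero.mp (norm_le_zero_iff.mp h)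
    · right
      exact h
  set P : Finset ℝ := (Finset.univ ×ˢ ({-1, 0, 1} : Finset ℤ)).image
    (fun z : (Wd M (Fin n) × Wd M (Fin n)) × ℤ =>
      (rep (pt y z.1.1 - pt y z.1.2) - z.2 * (2 * Real.pi)) / δ) with hP
  set κ0 : ℝ := 1 / (2000 ^ 3 * 52 * M * (2 * M' + 2)) with hκ0
  have hM'0 : (0:ℝ) ≤ M' := by positivity
  have hκpos : 0 < κ0 := by positivity
  set c0 : ℝ := κ0 * (δ * σ) ^ 6 with hc0
  have hc0pos : 0 < c0 := by positivity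
  set Λ : ℝ := 20 * δ / (τ' * c0) with hΛ
  have hΛ0 : 0 ≤ Λ := by positivity
  obtain ⟨R, u, D, hR, hu, hD, hD1, hb1, hb2⟩ := block M hM τ Λ hτ hτ1 hΛ0 P
  haveI : Nonempty (Fin R ⊕ Fin R) := ⟨Sum.inl ⟨0, hR⟩⟩
  set δ' : ℝ := c0 * D ^ 6 with hδ'
  have hδ'pos : 0 < δ' := by positivity
  set x : Fin R ⊕ Fin R → TT := fun k => ((δ * u k : ℝ) : TT) with hx
  set e := (Fintype.equivFin (Fin n × (Fin R ⊕ Fin R))).symm with he
  have hs1 : D * δ * σ ≤ 1 := by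
    apply mul_le_one₀ (mul_le_one₀ hD1 hδ.le hδ1) hσ.le hσ1
  have hs0 : 0 < D * δ * σ := by positivity
  have hδ'eq : δ' = κ0 * (D * δ * σ) ^ 6 := by
    rw [hδ', hc0]
    ring
  have hs6 : (D * δ * σ) ^ 6 ≤ δ := by
    calc (D * δ * σ) ^ 6 ≤ D * δ * σ := pow_le_of_le_one hs0.le hs1 (by norm_num)
      _ = δ * (D * σ) := by ring
      _ ≤ δ * 1 := by
          apply mul_le_mul_of_nonneg_left _ hδ.le
          exact mul_le_one₀ hD1 hσ.le hσ1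
      _ = δ := mul_one _
  have hs61 : (D * δ * σ) ^ 6 ≤ 1 := hs6.trans hδ1
  have hκ1 : κ0 * (2 * M' + 2) ≤ 1 := by
    rw [hκ0]
    have : (1:ℝ) / (2000 ^ 3 * 52 * M * (2 * M' + 2)) * (2 * M' + 2) = 1 / (2000 ^ 3 * 52 * M) := by
      field_simp
    rw [this, div_le_one (by positivity)]
    nlinarith
  have hsep : ∀ (c d : ℂ) (w z : Wd M (Fin n) × WW M R),
      ((pt y w.1 + (pt (fun k => x (Sum.inl k)) w.2.1 + pt (fun k => x (Sum.inr k)) w.2.2)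
      = pt y z.1 + (pt (fun k => x (Sum.inl k)) z.2.1 + pt (fun k => x (Sum.inr k)) z.2.2)) ∧
      c ^ (w.2.1.1 : ℕ) * d ^ (w.2.2.1 : ℕ) = c ^ (z.2.1.1 : ℕ) * d ^ (z.2.2.1 : ℕ)) ∨
      D * δ * σ ≤ ‖pt y w.1 + (pt (fun k => x (Sum.inl k)) w.2.1
        + pt (fun k => x (Sum.inr k)) w.2.2)
      - (pt y z.1 + (pt (fun k => x (Sum.inl k)) z.2.1
        + pt (fun k => x (Sum.inr k)) z.2.2))‖ := by
    intro c d w z
    refine separation y δ hδ hδM u hu D σ hD hD1 hδ1 hσ hσ1 hσy ?_ c d w z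
    intro p p' m hm ω η
    apply hb1
    rw [hP, Finset.mem_image]
    refine ⟨((p, p'), m), ?_, rfl⟩
    rw [Finset.mem_product]
    refine ⟨Finset.mem_univ _, ?_⟩
    simp only [Finset.mem_insert, Finset.mem_singleton]
    exact hm
  have havcx : ∀ k : ℤ, avc x k = (Fintype.card (Fin R ⊕ Fin R) : ℂ)⁻¹ *
          ∑ i, Complex.exp (-(Complex.I * ((((k : ℝ) * δ : ℝ) : ℂ) * (u i : ℝ)))) := by
    intro k
    unfold avc
    congr 1
    apply Finset.sum_congr rfl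
    intro i _
    rw [hx]
    simp only
    rw [fourier_coe_apply]
    congr 1
    have hpi : (Real.pi : ℂ) ≠ 0 := by exact_mod_cast Real.pi_ne_zero
    push_cast
    field_simp
  refine ⟨Fintype.card (Fin n × (Fin R ⊕ Fin R)), prodY y x ∘ e, δ', Fintype.card_pos, hδ'pos,
    ?_, ?_, ?_, ?_, ?_, ?_⟩
  · rw [hδ'eq]
    have h2 : κ0 ≤ 1 / 2 := by nlinarith [mul_nonneg hκpos.le hM'0]
    calc κ0 * (D * δ * σ) ^ 6 ≤ (1 / 2) * δ := by gcongr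
      _ = δ / 2 := by ring
  · rw [hδ'eq]
    have h2 : 2 * M' * κ0 ≤ 1 := by nlinarith
    have h3 : 0 ≤ 2 * M' * κ0 := by positivity
    calc 2 * M' * (κ0 * (D * δ * σ) ^ 6) = (2 * M' * κ0) * (D * δ * σ) ^ 6 := by ring
      _ ≤ 1 * 1 := by gcongr
      _ = 1 := by ring
  · intro g L hL hg
    rw [avr_equiv]
    apply avr_prod y x δ _ g L hL hg
    intro k
    rw [hx]
    refine (norm_coe_le _).trans ?_
    rw [abs_mul, abs_of_pos hδ, abs_of_nonneg (hu k).1]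
    nlinarith [(hu k).2]
  · intro k
    rw [avc_equiv, avc_prod, norm_mul]
    calc ‖avc y k‖ * ‖avc x k‖ ≤ ‖avc y k‖ * 1 := by
          gcongr
          exact norm_avc_le x k
      _ = ‖avc y k‖ := mul_one _
  · intro k h1 h2
    rw [avc_equiv, avc_prod, norm_mul]
    have h3 : ‖avc x k‖ ≤ τ := by
      rw [havcx]
      apply hb2
      · rw [abs_mul, abs_of_pos hδ]
        calc 20 / τ = 20 / (τ * δ) * δ := by field_simp
          _ ≤ |(k : ℝ)| * δ := by gcongr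
      · rw [abs_mul, abs_of_pos hδ]
        calc |(k : ℝ)| * δ ≤ 20 / (τ' * δ') * δ := by gcongr
          _ = Λ / D ^ 6 := by
            rw [hδ', hΛ]
            field_simp
    calc ‖avc y k‖ * ‖avc x k‖ ≤ 1 * τ := by
          gcongr
          exact norm_avc_le y k
      _ = τ := one_mul _
  · intro a b ha hb
    rw [Av_equiv]
    refine step_eig hn hR hM y x (D * δ * σ) hs0 hs1 hsep a b ha hb δ' hδ'pos ?_
    rw [hδ'eq, hκ0]
    have e1 : ((D * δ * σ) ^ 2 / 2000) ^ 3 = (D * δ * σ) ^ 6 / 2000 ^ 3 := by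
      rw [div_pow, ← pow_mul]
    have e2 : 52 * M * (1 / (2000 ^ 3 * 52 * M * (2 * M' + 2)) * (D * δ * σ) ^ 6)
        = (D * δ * σ) ^ 6 / (2000 ^ 3 * (2 * M' + 2)) := by
      field_simp
    rw [e1, e2]
    apply div_le_div_of_nonneg_left (by positivity) (by positivity)
    nlinarith

end

end Pool.Agent.V11282.RJ
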