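import Mathlib
import Pool.Agent.V11282.RJ.Step2

/-!
The limit measure.
-/

set_option autoImplicit false

open MeasureTheory Finset Filter Topology AddCircle BoundedContinuousFunction

namespace Pool.Agent.V11282.RJ

noncomputable section

/-- states of the recursion -/
abbrev St := Σ n : ℕ, (Fin n → TT) × ℝ

/-- admissible states -/
def Good (j : ℕ) (s : St) : Prop :=
  0 < s.1 ∧ 0 < s.2.2 ∧ s.2.2 ≤ 1 ∧ 2 * ((j + 1 : ℕ) : ℝ) * s.2.2 ≤ 1

/-- relation between consecutive states -/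
def Rel (j : ℕ) (s s' : St) : Prop :=
  s'.2.2 ≤ s.2.2 / 2 ∧
  (∀ (g : TT → ℝ) (L : ℝ), 0 ≤ L → (∀ u t, |g u - g t| ≤ L * ‖u - t‖) →
        |avr s'.2.1 g - avr s.2.1 g| ≤ s.2.2 * L) ∧
  (∀ k : ℤ, ‖avc s'.2.1 k‖ ≤ ‖avc s.2.1 k‖) ∧
  (∀ k : ℤ, 20 / ((1 / (j + 1 : ℝ)) * s.2.2) ≤ |(k : ℝ)| →
    |(k : ℝ)| ≤ 20 / ((1 / (j + 1 + 1 : ℝ)) * s'.2.2) → ‖avc s'.2.1 k‖ ≤ 1 / (j + 1)) ∧
  (∀ a b : ℂ, ‖a‖ = 1 → ‖b‖ = 1 → ∃ f ∈ H10, f ≠ 0 ∧
        ‖Av s'.2.1 f - ((a + b) / 2) • f‖ ≤ 8 / (j + 1 : ℝ) * ‖f‖ ∧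
        ∀ u t : TT, ‖tr u f - tr t f‖ ≤ 1 / ((j + 1 : ℝ) * s'.2.2) * ‖u - t‖ * ‖f‖)

lemma next (j : ℕ) (s : St) (hs : Good j s) : ∃ s' : St, Good (j + 1) s' ∧ Rel j s s' := by
  obtain ⟨n, y, δ⟩ := s
  obtain ⟨h1, h2, h3, h4⟩ := hs
  simp only at h1 h2 h3 h4
  have hj : (0:ℝ) < (j : ℝ) + 1 := by positivity
  have hj2 : (0:ℝ) < (j : ℝ) + 1 + 1 := by positivity
  obtain ⟨n', y', δ', a1, a2, a3, a4, a5, a6, a7, a8⟩ :=
    step n h1 y δ h2 h3 (j + 1) (by omega) h4 (1 / (j + 1 : ℝ)) (1 / (j + 1 + 1 : ℝ))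
      (by positivity) (by rw [div_le_one hj]; linarith [Nat.cast_nonneg (α := ℝ) j])
      (by positivity) (j + 2)
  refine ⟨⟨n', y', δ'⟩, ⟨a1, a2, by simp only; linarith, ?_⟩, a3, a5, a6, a7, ?_⟩
  · simp only
    push_cast at a4 ⊢
    linarith
  · simp only
    push_cast at a8
    exact a8

/-- the sequence of states -/
def seq : (j : ℕ) → {s : St // Good j s}
  | 0 => ⟨⟨1, fun _ => 0, 1 / 2⟩, by
      refine ⟨one_pos, by norm_num, by norm_num, ?_⟩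
      norm_num⟩
  | (j + 1) => ⟨(next j (seq j).1 (seq j).2).choose, (next j (seq j).1 (seq j).2).choose_spec.1⟩

lemma seq_rel (j : ℕ) : Rel j (seq j).1 (seq (j + 1)).1 :=
  (next j (seq j).1 (seq j).2).choose_spec.2

/-- number of points -/
def nn (j : ℕ) : ℕ := (seq j).1.1
/-- the points -/
def yy (j : ℕ) : Fin (nn j) → TT := (seq j).1.2.1
/-- the scales -/
def dd (j : ℕ) : ℝ := (seq j).1.2.2

lemma nn_pos (j : ℕ) : 0 < nn j := (seq j).2.1
lemma dd_pos (j : ℕ) : 0 < dd j := (seq j).2.2.1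
lemma dd_le (j : ℕ) : dd j ≤ 1 := (seq j).2.2.2.1

lemma dd_succ (j : ℕ) : dd (j + 1) ≤ dd j / 2 := (seq_rel j).1

lemma dd_pow (j : ℕ) : dd j ≤ (1 / 2) ^ j := by
  induction j with
  | zero => simpa using dd_le 0
  | succ j ih =>
    have := dd_succ j
    rw [pow_succ]
    linarith

lemma close (j m : ℕ) (g : TT → ℝ) (L : ℝ) (hL : 0 ≤ L)
    (hg : ∀ u t, |g u - g t| ≤ L * ‖u - t‖) :
    |avr (yy (j + m)) g - avr (yy j) g| ≤ (2 * dd j - 2 * dd (j + m)) * L := by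
  induction m with
  | zero => simp
  | succ m ih =>
    have h1 : |avr (yy (j + m + 1)) g - avr (yy (j + m)) g| ≤ dd (j + m) * L :=
      (seq_rel (j + m)).2.1 g L hL hg
    have h2 := dd_succ (j + m)
    rw [← add_assoc]
    have h3 : avr (yy (j + m + 1)) g - avr (yy j) g
        = (avr (yy (j + m + 1)) g - avr (yy (j + m)) g) + (avr (yy (j + m)) g - avr (yy j) g) := by
      ring
    rw [h3]
    refine (abs_add_le _ _).trans ?_
    nlinarith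

lemma close' (j m : ℕ) (hjm : j ≤ m) (g : TT → ℝ) (L : ℝ) (hL : 0 ≤ L)
    (hg : ∀ u t, |g u - g t| ≤ L * ‖u - t‖) :
    |avr (yy m) g - avr (yy j) g| ≤ 2 * dd j * L := by
  obtain ⟨k, rfl⟩ := Nat.exists_eq_add_of_le hjm
  refine (close j k g L hL hg).trans ?_
  have := dd_pos (j + k)
  nlinarith

lemma avc_anti (j m : ℕ) (hjm : j ≤ m) (k : ℤ) : ‖avc (yy m) k‖ ≤ ‖avc (yy j) k‖ := by
  induction m, hjm using Nat.le_induction with
  | base => exact le_rfl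
  | succ m _ ih => exact ((seq_rel m).2.2.1 k).trans ih

/-- thresholds for the frequencies -/
def KK (j : ℕ) : ℝ := 20 / ((1 / (j + 1 : ℝ)) * dd j)

lemma KK_ge (j : ℕ) : (j : ℝ) ≤ KK j := by
  unfold KK
  have h1 := dd_pos j
  have h2 := dd_le j
  have hj : (0:ℝ) ≤ j := Nat.cast_nonneg j
  rw [le_div_iff₀ (by positivity)]
  have h3 : (j : ℝ) * (1 / (j + 1) * dd j) = (j / (j + 1)) * dd j := by ring
  rw [h3]
  have h4 : (j : ℝ) / (j + 1) ≤ 1 := by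
    rw [div_le_one (by positivity)]
    linarith
  have h5 : 0 ≤ (j : ℝ) / (j + 1) := by positivity
  nlinarith

lemma avc_small (j : ℕ) (k : ℤ) (h1 : KK j ≤ |(k : ℝ)|) (h2 : |(k : ℝ)| ≤ KK (j + 1)) :
    ‖avc (yy (j + 1)) k‖ ≤ 1 / (j + 1) := by
  refine (seq_rel j).2.2.2.1 k h1 ?_
  refine h2.trans (le_of_eq ?_)
  unfold KK dd
  push_cast
  rfl

/-- the approximating measures -/
def nu (j : ℕ) : ProbabilityMeasure TT :=
  ⟨(nn j : ENNReal)⁻¹ • ∑ i : Fin (nn j), Measure.dirac (yy j i), ⟨by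
    rw [Measure.smul_apply, Measure.finsetSum_apply]
    have h : (nn j : ENNReal) ≠ 0 := by exact_mod_cast (nn_pos j).ne'
    simp only [measure_univ, Finset.sum_const, Finset.card_univ, Fintype.card_fin, nsmul_eq_mul,
      mul_one, smul_eq_mul]
    exact ENNReal.inv_mul_cancel h (ENNReal.natCast_ne_top _)⟩⟩

lemma nu_int {E : Type*} [NormedAddCommGroup E] [NormedSpace ℝ E] [CompleteSpace E] (j : ℕ)
    (g : TT → E) (hg : Continuous g) :
    ∫ t, g t ∂(nu j : Measure TT) = (nn j : ℝ)⁻¹ • ∑ i, g (yy j i) := by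
  have h1 : (nu j : Measure TT) = (nn j : ENNReal)⁻¹ • ∑ i : Fin (nn j), Measure.dirac (yy j i) :=
    rfl
  rw [h1, integral_smul_measure, integral_finset_sum_measure]
  · simp only [integral_dirac]
    congr 1
    simp
  · intro i _
    exact hg.integrable_of_hasCompactSupport (HasCompactSupport.of_compactSpace _)

end

end Pool.Agent.V11282.RJ
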