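import Mathlib
import Pool.Agent.V11282.RJ.Lim

/-!
The limit measure: Rajchman property and the spectrum.
-/

set_option autoImplicit false

open MeasureTheory Finset Filter Topology AddCircle BoundedContinuousFunction

namespace Pool.Agent.V11282.RJ

noncomputable section

lemma exists_limit : ∃ μ : ProbabilityMeasure TT,
    Tendsto nu (hyperfilter ℕ : Filter ℕ) (𝓝 μ) := by
  have h := ((hyperfilter ℕ).map nu).le_nhds_lim
  exact ⟨_, h⟩

/-- the limit measure -/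
def mu : ProbabilityMeasure TT := exists_limit.choose

lemma nu_tendsto : Tendsto nu (hyperfilter ℕ : Filter ℕ) (𝓝 mu) := exists_limit.choose_spec

lemma lim_real (g : TT → ℝ) (hg : Continuous g) :
    Tendsto (fun j => avr (yy j) g) (hyperfilter ℕ : Filter ℕ)
      (𝓝 (∫ t, g t ∂(mu : Measure TT))) := by
  have h := (ProbabilityMeasure.tendsto_iff_forall_integral_tendsto.mp nu_tendsto)
    (BoundedContinuousFunction.mkOfCompact ⟨g, hg⟩)
  refine h.congr fun j => ?_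
  simp only [mkOfCompact_apply, ContinuousMap.coe_mk]
  rw [nu_int j g hg]
  unfold avr
  simp

lemma lim_complex (g : TT → ℂ) (hg : Continuous g) :
    Tendsto (fun j => (nn j : ℂ)⁻¹ * ∑ i, g (yy j i)) (hyperfilter ℕ : Filter ℕ)
      (𝓝 (∫ t, g t ∂(mu : Measure TT))) := by
  have h := ((ProbabilityMeasure.tendsto_iff_forall_integral_rclike_tendsto ℂ).mp nu_tendsto)
    (BoundedContinuousFunction.mkOfCompact ⟨g, hg⟩)
  refine h.congr fun j => ?_
  simp only [mkOfCompact_apply, ContinuousMap.coe_mk]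
  rw [nu_int j g hg]
  simp [Complex.real_smul]

lemma close_mu (j : ℕ) (g : TT → ℝ) (L : ℝ) (hL : 0 ≤ L)
    (hg : ∀ u t, |g u - g t| ≤ L * ‖u - t‖) :
    |∫ t, g t ∂(mu : Measure TT) - avr (yy j) g| ≤ 2 * dd j * L := by
  have hgc : Continuous g := by
    rw [continuous_iff_continuousAt]
    intro t
    rw [ContinuousAt, tendsto_iff_norm_sub_tendsto_zero]
    have h1 : Tendsto (fun u : TT => L * ‖u - t‖) (𝓝 t) (𝓝 (L * ‖t - t‖)) := by
      apply Continuous.tendsto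
      fun_prop
    rw [sub_self, norm_zero, mul_zero] at h1
    exact squeeze_zero (fun u => norm_nonneg _) (fun u => hg u t) h1
  have h1 := ((lim_real g hgc).sub_const (avr (yy j) g)).abs
  apply le_of_tendsto h1
  have h2 : ∀ᶠ m in (hyperfilter ℕ : Filter ℕ), j ≤ m :=
    (eventually_ge_atTop j).filter_mono Nat.hyperfilter_le_atTop
  filter_upwards [h2] with m hm
  exact close' j m hm g L hL hg

lemma close_op (j : ℕ) (f : L1) (L : ℝ) (hL : 0 ≤ L)
    (hf : ∀ u t, ‖tr u f - tr t f‖ ≤ L * ‖u - t‖) :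
    ‖cv (mu : Measure TT) f - Av (yy j) f‖ ≤ 2 * dd j * L := by
  obtain ⟨φ, hφ, hφv⟩ := exists_dual_vector'' ℂ (cv (mu : Measure TT) f - Av (yy j) f)
  set g : TT → ℝ := fun t => (φ (tr t f)).re with hg
  have hgl : ∀ u t, |g u - g t| ≤ L * ‖u - t‖ := by
    intro u t
    have e : g u - g t = (φ (tr u f - tr t f)).re := by
      simp [hg]
    rw [e]
    refine (Complex.abs_re_le_norm _).trans ((φ.le_opNorm _).trans ?_)
    calc ‖φ‖ * ‖tr u f - tr t f‖ ≤ 1 * ‖tr u f - tr t f‖ := by gcongr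
      _ ≤ L * ‖u - t‖ := by rw [one_mul]; exact hf u t
  have h1 := close_mu j g L hL hgl
  have h2 : ∫ t, g t ∂(mu : Measure TT) = (φ (cv (mu : Measure TT) f)).re := by
    have h3 := ContinuousLinearMap.integral_comp_comm φ (tr_integrable (mu : Measure TT) f)
    have h4 := ContinuousLinearMap.integral_comp_comm Complex.reCLM
      (φ.integrable_comp (tr_integrable (mu : Measure TT) f))
    rw [h3] at h4
    exact h4
  have h5 : avr (yy j) g = (φ (Av (yy j) f)).re := by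
    rw [Av_apply, map_smul, map_sum]
    unfold avr
    simp only [hg, smul_eq_mul]
    rw [← Complex.re_sum]
    have : ((Fintype.card (Fin (nn j)) : ℂ))⁻¹ = (((Fintype.card (Fin (nn j)) : ℝ)⁻¹ : ℝ) : ℂ) := by
      push_cast
      rfl
    rw [this, Complex.re_ofReal_mul]
  rw [h2, h5, ← Complex.sub_re, ← map_sub, hφv] at h1
  simpa using h1

lemma rajchman_bound (j : ℕ) (k : ℤ) (hk : KK j ≤ |(k : ℝ)|) :
    ‖∫ t, (fourier (-k) t : ℂ) ∂(mu : Measure TT)‖ ≤ 1 / (j + 1) := by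
  have hex : ∃ m, |(k : ℝ)| ≤ KK (j + m + 1) := by
    obtain ⟨m, hm⟩ := exists_nat_ge |(k : ℝ)|
    refine ⟨m, hm.trans ((Nat.cast_le.mpr ?_).trans (KK_ge _))⟩
    omega
  classical
  set m := Nat.find hex with hm
  have h1 : |(k : ℝ)| ≤ KK (j + m + 1) := Nat.find_spec hex
  have h2 : KK (j + m) ≤ |(k : ℝ)| := by
    rcases Nat.eq_zero_or_pos m with h0 | h0
    · rw [h0]; exact hk
    · have h3 := Nat.find_min hex (m := m - 1) (by omega)
      push Not at h3
      have e : j + (m - 1) + 1 = j + m := by omega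
      rw [e] at h3
      exact h3.le
  have h3 := avc_small (j + m) k h2 h1
  have h4 : (1:ℝ) / (((j + m : ℕ) : ℝ) + 1) ≤ 1 / (j + 1) := by
    apply one_div_le_one_div_of_le (by positivity)
    push_cast
    have : (0:ℝ) ≤ m := Nat.cast_nonneg m
    linarith
  have h5 := (lim_complex (fun t => (fourier (-k) t : ℂ)) (ContinuousMap.continuous _)).norm
  apply le_of_tendsto h5
  have h6 : ∀ᶠ i in (hyperfilter ℕ : Filter ℕ), j + m + 1 ≤ i :=
    (eventually_ge_atTop _).filter_mono Nat.hyperfilter_le_atTop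
  filter_upwards [h6] with i hi
  have h7 := avc_anti (j + m + 1) i hi k
  have h8 : avc (yy i) k = (nn i : ℂ)⁻¹ * ∑ l, (fourier (-k) (yy i l) : ℂ) := by
    unfold avc
    rw [Fintype.card_fin]
  rw [← h8]
  exact h7.trans (h3.trans h4)

lemma ev_large (K : ℝ) : ∀ᶠ k : ℤ in cofinite, K ≤ |(k : ℝ)| := by
  rw [eventually_cofinite]
  apply (Set.finite_Icc (-⌈K⌉) ⌈K⌉).subset
  intro k hk
  simp only [Set.mem_setOf_eq, not_le] at hk
  have h1 := Int.le_ceil K
  rw [abs_lt] at hk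
  rw [Set.mem_Icc]
  constructor
  · have : ((-⌈K⌉ : ℤ) : ℝ) ≤ (k : ℝ) := by
      push_cast
      linarith
    exact_mod_cast this
  · have : (k : ℝ) ≤ ((⌈K⌉ : ℤ) : ℝ) := by linarith
    exact_mod_cast this

theorem rajchman : Tendsto (fun k : ℤ => ∫ t, (fourier (-k) t : ℂ) ∂(mu : Measure TT))
    cofinite (𝓝 0) := by
  rw [tendsto_zero_iff_norm_tendsto_zero, Metric.tendsto_nhds]
  intro ε hε
  obtain ⟨j, hj⟩ := exists_nat_one_div_lt hε
  filter_upwards [ev_large (KK j)] with k hk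
  rw [Real.dist_eq, sub_zero, abs_of_nonneg (norm_nonneg _)]
  exact lt_of_le_of_lt (rajchman_bound j k hk) hj

lemma mid (l : ℂ) (hl : ‖l‖ ≤ 1) : ∃ a b : ℂ, ‖a‖ = 1 ∧ ‖b‖ = 1 ∧ l = (a + b) / 2 := by
  obtain ⟨w, hw, hlw⟩ : ∃ w : ℂ, ‖w‖ = 1 ∧ l = ‖l‖ * w := by
    by_cases h : l = 0
    · exact ⟨1, norm_one, by rw [h]; simp⟩
    · have h' : ‖l‖ ≠ 0 := norm_ne_zero_iff.mpr h
      refine ⟨l / ‖l‖, by rw [norm_div, Complex.norm_real, norm_norm, div_self h'], ?_⟩
      have : (‖l‖ : ℂ) ≠ 0 := by exact_mod_cast h'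
      field_simp
  set r := ‖l‖ with hr
  have hr0 : 0 ≤ r := norm_nonneg _
  set q := Real.sqrt (1 - r ^ 2) with hq
  have hq2 : q ^ 2 = 1 - r ^ 2 := Real.sq_sqrt (by nlinarith)
  have h1 : ∀ q' : ℝ, q' ^ 2 = 1 - r ^ 2 → ‖w * ((r : ℂ) + q' * Complex.I)‖ = 1 := by
    intro q' hq'
    rw [norm_mul, hw, one_mul]
    have h2 : ‖(r : ℂ) + q' * Complex.I‖ ^ 2 = 1 := by
      rw [Complex.sq_norm, Complex.normSq_add_mul_I, hq']
      ring
    have h3 : 0 ≤ ‖(r : ℂ) + q' * Complex.I‖ := norm_nonneg _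
    nlinarith
  refine ⟨w * ((r : ℂ) + q * Complex.I), w * ((r : ℂ) + (-q : ℝ) * Complex.I), h1 q hq2,
    h1 (-q) (by rw [neg_sq]; exact hq2), ?_⟩
  conv_lhs => rw [hlw]
  push_cast
  ring

lemma spec_le {E : Type*} [NormedAddCommGroup E] [NormedSpace ℂ E] [CompleteSpace E]
    (T : E →L[ℂ] E) (hT : ‖T‖ ≤ 1) (l : ℂ) (hl : l ∈ spectrum ℂ T) : ‖l‖ ≤ 1 := by
  rcases subsingleton_or_nontrivial E with h | h
  · exfalso
    rw [spectrum.mem_iff] at hl
    apply hl
    haveI : Subsingleton (E →L[ℂ] E) := ⟨fun a b => by ext x; exact Subsingleton.elim _ _⟩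
    exact isUnit_of_subsingleton _
  · have h1 := spectrum.norm_le_norm_of_mem hl
    exact h1.trans hT

lemma norm_cvH_le (μ : Measure TT) [IsProbabilityMeasure μ] : ‖cvH μ‖ ≤ 1 := by
  apply ContinuousLinearMap.opNorm_le_bound _ zero_le_one
  intro f
  rw [one_mul]
  exact norm_cv_le μ (f : L1)

theorem spectrum_mu : spectrum ℂ (cvH (mu : Measure TT)) = Metric.closedBall (0:ℂ) 1 := by
  apply Set.Subset.antisymm
  · intro l hl
    rw [mem_closedBall_zero_iff]
    exact spec_le (cvH (mu : Measure TT)) (norm_cvH_le _) l hl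
  · intro l hl
    have hl1 : ‖l‖ ≤ 1 := by simpa using hl
    obtain ⟨a, b, ha, hb, rfl⟩ := mid l hl1
    apply mem_spectrum_of_approx
    intro ε hε
    obtain ⟨j, hj⟩ := exists_nat_one_div_lt (show 0 < ε / 10 by positivity)
    obtain ⟨f, hf, hf0, hf1, hf2⟩ := (seq_rel j).2.2.2.2 a b ha hb
    refine ⟨f, hf, hf0, ?_⟩
    have hj1 : (0:ℝ) < (j : ℝ) + 1 := by positivity
    have hd := dd_pos (j + 1)
    have h1 := close_op (j + 1) f (1 / ((j + 1 : ℝ) * dd (j + 1)) * ‖f‖) (by positivity) (by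
      intro u t
      refine (hf2 u t).trans (le_of_eq ?_)
      unfold dd
      ring)
    have h2 : 2 * dd (j + 1) * (1 / ((j + 1 : ℝ) * dd (j + 1)) * ‖f‖) = 2 / (j + 1) * ‖f‖ := by
      field_simp
    rw [h2] at h1
    have h3 : cv (mu : Measure TT) f - ((a + b) / 2) • f
        = (cv (mu : Measure TT) f - Av (yy (j + 1)) f)
          + (Av (yy (j + 1)) f - ((a + b) / 2) • f) := by abel
    rw [h3]
    refine (norm_add_le _ _).trans ?_
    have h4 : ‖Av (yy (j + 1)) f - ((a + b) / 2) • f‖ ≤ 8 / (j + 1 : ℝ) * ‖f‖ := hf1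
    have h5 : 2 / ((j : ℝ) + 1) * ‖f‖ + 8 / (j + 1 : ℝ) * ‖f‖ = (1 / (j + 1) * 10) * ‖f‖ := by ring
    calc _ ≤ 2 / ((j : ℝ) + 1) * ‖f‖ + 8 / (j + 1 : ℝ) * ‖f‖ := add_le_add h1 h4
      _ = (1 / ((j : ℝ) + 1) * 10) * ‖f‖ := h5
      _ ≤ ε * ‖f‖ := by
        apply mul_le_mul_of_nonneg_right _ (norm_nonneg _)
        linarith

end

end Pool.Agent.V11282.RJ
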